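import Mathlib

/-!
# The key inequality: near-extremality forces an approximate identity of finite rank
-/

set_option autoImplicit false

open Finset Filter
open scoped Topology

namespace Pool.Agent.Lib.MP_ffba67_an_b

section General

variable {𝕂 : Type} [RCLike 𝕂] {X : Type} [NormedAddCommGroup X] [NormedSpace 𝕂 X]

/-- Clarkson-type uniform convexity with exponent `8`. -/
def Clarkson (𝕂 X : Type) [RCLike 𝕂] [NormedAddCommGroup X] [NormedSpace 𝕂 X] : Prop :=
  ∀ x y : X, ‖(2 : 𝕂)⁻¹ • (x + y)‖ ^ 8 + ‖(2 : 𝕂)⁻¹ • (x - y)‖ ^ 8 ≤ (‖x‖ ^ 8 + ‖y‖ ^ 8) / 2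

/-- Finite rank. -/
def FinRank {Y : Type} [NormedAddCommGroup Y] [NormedSpace 𝕂 Y] (R : X →L[𝕂] Y) : Prop :=
  FiniteDimensional 𝕂 (LinearMap.range (R : X →ₗ[𝕂] Y))

lemma tendsto_of_clarkson (hC : Clarkson 𝕂 X) (a : X →L[𝕂] 𝕂) (x : X) (hx : 0 < ‖x‖)
    (hax : a x = 1) (ha : ∀ y, ‖a y‖ * ‖x‖ ≤ ‖y‖) (y : ℕ → X) (hy : ∀ k, ‖y k‖ ≤ ‖x‖)
    (δ : ℕ → ℝ) (hδ : Tendsto δ atTop (𝓝 0)) (hre : ∀ k, 1 - δ k ≤ RCLike.re (a (y k))) :
    Tendsto y atTop (𝓝 x) := by
  have h1 : ∀ k, (1 - δ k / 2) * ‖x‖ ≤ ‖(2 : 𝕂)⁻¹ • (x + y k)‖ := by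
    intro k
    refine le_trans ?_ (ha _)
    refine mul_le_mul_of_nonneg_right ?_ hx.le
    refine le_trans ?_ (RCLike.re_le_norm _)
    rw [map_smul, map_add, hax, smul_eq_mul]
    have h2 : (2 : 𝕂)⁻¹ = (((1 / 2 : ℝ)) : 𝕂) := by
      push_cast; ring
    rw [h2, RCLike.re_ofReal_mul, map_add, RCLike.one_re]
    have := hre k
    linarith
  have h2 : ∀ᶠ k in atTop, ‖(2 : 𝕂)⁻¹ • (x - y k)‖ ^ 8 ≤ ‖x‖ ^ 8 * (1 - (1 - δ k / 2) ^ 8) := by
    have hev : ∀ᶠ k in atTop, δ k < 2 := hδ.eventually_lt_const (by norm_num)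
    filter_upwards [hev] with k hk
    have h3 := hC x (y k)
    have h4 : ‖y k‖ ^ 8 ≤ ‖x‖ ^ 8 := pow_le_pow_left₀ (norm_nonneg _) (hy k) 8
    have h5 : ((1 - δ k / 2) * ‖x‖) ^ 8 ≤ ‖(2 : 𝕂)⁻¹ • (x + y k)‖ ^ 8 :=
      pow_le_pow_left₀ (mul_nonneg (by linarith) hx.le) (h1 k) 8
    rw [mul_pow] at h5
    nlinarith
  have h3 : Tendsto (fun k => ‖x‖ ^ 8 * (1 - (1 - δ k / 2) ^ 8)) atTop (𝓝 0) := by
    have : Tendsto (fun k => ‖x‖ ^ 8 * (1 - (1 - δ k / 2) ^ 8)) atTop
        (𝓝 (‖x‖ ^ 8 * (1 - (1 - 0 / 2) ^ 8))) := by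
      refine Tendsto.const_mul _ (Tendsto.const_sub _ (Tendsto.pow ?_ 8))
      exact Tendsto.const_sub _ (hδ.div_const 2)
    simpa using this
  have h4 : Tendsto (fun k => ‖(2 : 𝕂)⁻¹ • (x - y k)‖ ^ 8) atTop (𝓝 0) :=
    tendsto_of_tendsto_of_tendsto_of_le_of_le' tendsto_const_nhds h3
      (Eventually.of_forall fun k => by positivity) h2
  have h5 : Tendsto (fun k => ‖(2 : 𝕂)⁻¹ • (x - y k)‖) atTop (𝓝 0) := by
    have h6 := h4.rpow_const (p := (8 : ℝ)⁻¹) (Or.inr (by norm_num))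
    rw [Real.zero_rpow (by norm_num)] at h6
    refine h6.congr fun k => ?_
    rw [← Real.rpow_natCast, ← Real.rpow_mul (norm_nonneg _)]
    norm_num
  have h6 : Tendsto (fun k => x - y k) atTop (𝓝 0) := by
    rw [tendsto_zero_iff_norm_tendsto_zero]
    have h7 := h5.const_mul 2
    rw [mul_zero] at h7
    refine h7.congr fun k => ?_
    rw [norm_smul, norm_inv]
    have : ‖(2 : 𝕂)‖ = 2 := by
      rw [show (2 : 𝕂) = ((2 : ℕ) : 𝕂) by norm_num, RCLike.norm_natCast]; norm_num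
    rw [this]; ring
  have h7 := (tendsto_const_nhds (x := x)).sub h6
  simpa using h7

lemma FinRank.smul {Y : Type} [NormedAddCommGroup Y] [NormedSpace 𝕂 Y] {R : X →L[𝕂] Y}
    (hR : FinRank R) (c : 𝕂) : FinRank (c • R) := by
  unfold FinRank at *
  refine Submodule.finiteDimensional_of_le (S₂ := LinearMap.range (R : X →ₗ[𝕂] Y)) ?_
  rintro _ ⟨x, rfl⟩
  exact ⟨c • x, by simp⟩

lemma FinRank.comp_right {Y Z : Type} [NormedAddCommGroup Y] [NormedSpace 𝕂 Y]
    [NormedAddCommGroup Z] [NormedSpace 𝕂 Z] {R : Y →L[𝕂] Z}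
    (hR : FinRank R) (T : X →L[𝕂] Y) : FinRank (R.comp T) := by
  unfold FinRank at *
  refine Submodule.finiteDimensional_of_le (S₂ := LinearMap.range (R : Y →ₗ[𝕂] Z)) ?_
  rintro _ ⟨x, rfl⟩
  exact ⟨T x, rfl⟩

lemma FinRank.pow {R : X →L[𝕂] X} (hR : FinRank R) (q : ℕ) : FinRank (R ^ (q + 1)) := by
  rw [pow_succ', ContinuousLinearMap.mul_def]
  exact hR.comp_right _

variable {J : Type} [Fintype J] [DecidableEq J] [Nonempty J]

/-- The averaged trace functional. -/
noncomputable def avg (al : J → X →L[𝕂] 𝕂) (y : J → X) : 𝕂 :=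
  (Fintype.card J : 𝕂)⁻¹ * ∑ j, al j (y j)

lemma avg_smul (al : J → X →L[𝕂] 𝕂) (c : 𝕂) (y : J → X) :
    avg al (fun j => c • y j) = c * avg al y := by
  unfold avg
  simp only [map_smul, smul_eq_mul, ← mul_sum]
  ring

lemma card_ne : (Fintype.card J : 𝕂) ≠ 0 := by
  rw [Nat.cast_ne_zero]
  exact Fintype.card_ne_zero

lemma norm_avg_le (al : J → X →L[𝕂] 𝕂) (y : J → X) (C : ℝ) (h : ∀ j, ‖al j (y j)‖ ≤ C) :
    ‖avg al y‖ ≤ C := by
  unfold avg
  have hpos : (0 : ℝ) < (Fintype.card J : ℝ) := by exact_mod_cast Fintype.card_pos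
  rw [norm_mul, norm_inv, RCLike.norm_natCast, inv_mul_le_iff₀ hpos]
  refine (norm_sum_le _ _).trans ((sum_le_card_nsmul _ _ _ fun j _ => h j).trans ?_)
  rw [card_univ, nsmul_eq_mul]

lemma tendsto_avg (al : J → X →L[𝕂] 𝕂) (y : ℕ → J → X) (z : J → X)
    (h : ∀ j, Tendsto (fun k => y k j) atTop (𝓝 (z j))) :
    Tendsto (fun k => avg al (y k)) atTop (𝓝 (avg al z)) := by
  unfold avg
  refine Tendsto.const_mul _ (tendsto_finsetSum _ fun j _ => ?_)
  exact ((al j).continuous.tendsto _).comp (h j)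

theorem key_general (hC : Clarkson 𝕂 X) (e : J → X) (al : J → X →L[𝕂] 𝕂)
    (h1 : ∀ i j, al i (e j) = if i = j then 1 else 0)
    (h2 : ∀ i j x, ‖al i x‖ * ‖e j‖ ≤ ‖x‖)
    (h3 : ∀ T : X →L[𝕂] X, FinRank T → ‖T‖ ≤ 1 → ‖avg al (fun j => T (e j))‖ ≤ 1 / 2)
    (M : Submodule 𝕂 X) (hM : M = Submodule.span 𝕂 (Set.range e)) (em : J → M)
    (hem : ∀ j, (em j : X) = e j) :
    ∃ c : ℝ, 1 < c ∧ ∀ (R : X →L[𝕂] X) (S : M →L[𝕂] M), FinRank R → ‖R‖ ≤ 1 → ‖S‖ ≤ 1 →
      c * ‖avg al (fun j => R (S (em j)))‖ ≤ 1 := by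
  by_contra hcon
  push Not at hcon
  have hpos : ∀ j, 0 < ‖e j‖ := by
    intro j
    rw [norm_pos_iff]
    intro h0
    have := h1 j j
    rw [h0, map_zero, if_pos rfl] at this
    exact zero_ne_one this
  have hfd : FiniteDimensional 𝕂 M := by
    rw [hM]; exact FiniteDimensional.span_of_finite 𝕂 (Set.finite_range e)
  -- the sequences
  have hseq : ∀ k : ℕ, ∃ (R : X →L[𝕂] X) (S : M →L[𝕂] M), FinRank R ∧ ‖R‖ ≤ 1 ∧ ‖S‖ ≤ 1 ∧
      1 - 1 / ((k : ℝ) + 1) ≤ RCLike.re (avg al (fun j => R (S (em j)))) := by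
    intro k
    have hk : (0 : ℝ) < 1 / ((k : ℝ) + 1) := by positivity
    obtain ⟨R, S, hR, hR1, hS1, hlt⟩ := hcon (1 + 1 / ((k : ℝ) + 1)) (by linarith)
    set z := avg al (fun j => R (S (em j))) with hz
    have hz0 : 0 < ‖z‖ := by
      by_contra h0
      have : ‖z‖ = 0 := le_antisymm (not_lt.mp h0) (norm_nonneg _)
      rw [this, mul_zero] at hlt
      linarith
    refine ⟨((starRingEnd 𝕂 z) / (‖z‖ : 𝕂)) • R, S, hR.smul _, ?_, hS1, ?_⟩
    · rw [norm_smul, norm_div, RCLike.norm_conj, RCLike.norm_ofReal, abs_norm, div_self hz0.ne',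
        one_mul]
      exact hR1
    · have h4 : avg al (fun j => (((starRingEnd 𝕂 z) / (‖z‖ : 𝕂)) • R) (S (em j))) =
          ((starRingEnd 𝕂 z) / (‖z‖ : 𝕂)) * z := by
        rw [hz, ← avg_smul]; rfl
      have h5 : ((starRingEnd 𝕂 z) / (‖z‖ : 𝕂)) * z = ((‖z‖ : ℝ) : 𝕂) := by
        rw [div_mul_eq_mul_div, RCLike.conj_mul, sq, mul_div_assoc, div_self, mul_one]
        exact_mod_cast hz0.ne'
      rw [h4, h5, RCLike.ofReal_re]
      have h6 : 1 < ‖z‖ + 1 / ((k : ℝ) + 1) * ‖z‖ := by linarith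
      by_cases h7 : ‖z‖ ≤ 1
      · nlinarith
      · linarith
  choose R S hR hR1 hS1 hre using hseq
  have hcard : (0 : ℝ) < (Fintype.card J : ℝ) := by exact_mod_cast Fintype.card_pos
  have hle1 : ∀ (y : X) (j : J), ‖y‖ ≤ ‖e j‖ → ‖al j y‖ ≤ 1 := by
    intro y j hy
    have := h2 j j y
    by_contra h4
    push Not at h4
    nlinarith [hpos j]
  have hnorm : ∀ (k : ℕ) (j : J), ‖R k (S k (em j))‖ ≤ ‖e j‖ := by
    intro k j
    calc ‖R k (S k (em j))‖ ≤ ‖R k‖ * ‖(S k (em j) : X)‖ := (R k).le_opNorm _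
      _ ≤ 1 * ‖S k (em j)‖ := mul_le_mul_of_nonneg_right (hR1 k) (norm_nonneg _)
      _ ≤ 1 * (‖S k‖ * ‖em j‖) := by
          rw [one_mul, one_mul]; exact (S k).le_opNorm _
      _ ≤ ‖em j‖ := by
          rw [one_mul]
          exact mul_le_of_le_one_left (norm_nonneg _) (hS1 k)
      _ = ‖e j‖ := by rw [← hem]; rfl
  have hsingle : ∀ (k : ℕ) (j : J), 1 - (Fintype.card J : ℝ) * (1 / ((k : ℝ) + 1)) ≤
      RCLike.re (al j (R k (S k (em j)))) := by
    intro k j
    have h4 : RCLike.re (avg al (fun j => R k (S k (em j)))) =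
        (Fintype.card J : ℝ)⁻¹ * ∑ j, RCLike.re (al j (R k (S k (em j)))) := by
      unfold avg
      rw [← map_sum, ← RCLike.re_ofReal_mul]
      congr 2
      push_cast
      rfl
    have h5 := hre k
    rw [h4] at h5
    have h6 : (Fintype.card J : ℝ) * (1 - 1 / ((k : ℝ) + 1)) ≤
        ∑ j, RCLike.re (al j (R k (S k (em j)))) := by
      have := mul_le_mul_of_nonneg_left h5 hcard.le
      rwa [mul_inv_cancel_left₀ hcard.ne'] at this
    have h7 : ∑ i, RCLike.re (al i (R k (S k (em i)))) ≤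
        RCLike.re (al j (R k (S k (em j)))) + ((Fintype.card J : ℝ) - 1) := by
      rw [← Finset.add_sum_erase _ _ (mem_univ j)]
      refine add_le_add_right ?_ _
      refine (sum_le_card_nsmul _ _ 1 fun i _ => ?_).trans ?_
      · exact (RCLike.re_le_norm _).trans (hle1 _ _ (hnorm k i))
      · rw [card_erase_of_mem (mem_univ j), card_univ, nsmul_eq_mul, mul_one,
          Nat.cast_sub (Nat.one_le_iff_ne_zero.mpr Fintype.card_ne_zero)]
        simp
    linarith
  have hδ : Tendsto (fun k : ℕ => (Fintype.card J : ℝ) * (1 / ((k : ℝ) + 1))) atTop (𝓝 0) := by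
    have := tendsto_one_div_add_atTop_nhds_zero_nat (𝕜 := ℝ)
    simpa using this.const_mul (Fintype.card J : ℝ)
  have hconv : ∀ j, Tendsto (fun k => R k (S k (em j))) atTop (𝓝 (e j)) := by
    intro j
    refine tendsto_of_clarkson hC (al j) (e j) (hpos j) (by rw [h1, if_pos rfl])
      (fun y => h2 j j y) _ (fun k => hnorm k j) _ hδ (fun k => hsingle k j)
  -- convergence on all of `M`
  have hspanM : ∀ x : M, x ∈ Submodule.span 𝕂 (Set.range em) := by
    intro x
    have hx : (x : X) ∈ Submodule.span 𝕂 (Set.range e) := hM ▸ x.2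
    have h4 : Set.range e = M.subtype '' Set.range em := by
      rw [← Set.range_comp]
      congr 1
      funext j
      exact (hem j).symm
    rw [h4, ← Submodule.map_span] at hx
    obtain ⟨y, hy, hyx⟩ := hx
    have : y = x := Subtype.ext hyx
    rwa [← this]
  have hconvM : ∀ x : M, Tendsto (fun k => R k (S k x)) atTop (𝓝 (x : X)) := by
    intro x
    refine Submodule.span_induction (p := fun x _ => Tendsto (fun k => R k (S k x)) atTop
      (𝓝 (x : X))) ?_ ?_ ?_ ?_ (hspanM x)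
    · rintro _ ⟨j, rfl⟩
      rw [hem]; exact hconv j
    · simp
    · intro a b _ _ ha hb
      have := ha.add hb
      simpa only [map_add, Submodule.coe_add] using this
    · intro c a _ ha
      have := ha.const_smul c
      simpa only [map_smul, Submodule.coe_smul] using this
  -- compactness
  have hprop : ProperSpace (M →L[𝕂] M) := FiniteDimensional.proper 𝕂 _
  obtain ⟨T, hT, φ, hφ, hlim⟩ := (isCompact_closedBall (0 : M →L[𝕂] M) 1).tendsto_subseq
    (x := S) (fun k => by simpa using hS1 k)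
  have hT1 : ‖T‖ ≤ 1 := by simpa using hT
  have hRlim : ∀ x : M, Tendsto (fun k => R (φ k) (T x : X)) atTop (𝓝 (x : X)) := by
    intro x
    have h4 : Tendsto (fun k => R (φ k) (S (φ k) x : X)) atTop (𝓝 (x : X)) :=
      (hconvM x).comp hφ.tendsto_atTop
    have h5 : Tendsto (fun k => R (φ k) ((T x - S (φ k) x : M) : X)) atTop (𝓝 0) := by
      rw [tendsto_zero_iff_norm_tendsto_zero]
      have h6 : Tendsto (fun k => ‖(T x - S (φ k) x : M)‖) atTop (𝓝 0) := by
        have h7 : Tendsto (fun k => (S (φ k)) x) atTop (𝓝 (T x)) :=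
          ((ContinuousLinearMap.apply 𝕂 M x).continuous.tendsto T).comp hlim
        have h8 := (tendsto_const_nhds (x := T x)).sub h7
        rw [sub_self] at h8
        exact tendsto_zero_iff_norm_tendsto_zero.mp h8
      refine squeeze_zero (fun k => norm_nonneg _) (fun k => ?_) h6
      refine ((R (φ k)).le_opNorm _).trans ?_
      exact mul_le_of_le_one_left (norm_nonneg _) (hR1 _)
    have h9 := h4.add h5
    rw [add_zero] at h9
    refine h9.congr fun k => ?_
    rw [← map_add]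
    congr 1
    rw [Submodule.coe_sub]; abel
  have hTnorm : ∀ x : M, ‖T x‖ = ‖x‖ := by
    intro x
    apply le_antisymm
    · exact (T.le_opNorm x).trans (mul_le_of_le_one_left (norm_nonneg _) hT1)
    · refine le_of_tendsto (hRlim x).norm (Eventually.of_forall fun k => ?_)
      refine ((R (φ k)).le_opNorm _).trans ?_
      exact mul_le_of_le_one_left (norm_nonneg _) (hR1 _)
  have hTinj : Function.Injective T := by
    rw [injective_iff_map_eq_zero]
    intro x hx
    rw [← norm_eq_zero, ← hTnorm, hx, norm_zero]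
  have hTsurj : Function.Surjective T :=
    LinearMap.surjective_of_injective (f := (T : M →ₗ[𝕂] M)) hTinj
  choose U hU using hTsurj
  have hUnorm : ∀ y, ‖U y‖ = ‖y‖ := fun y => by rw [← hTnorm, hU]
  have hUq : ∀ q y, ‖U^[q] y‖ = ‖y‖ := by
    intro q
    induction q with
    | zero => intro y; rfl
    | succ q ih => intro y; rw [Function.iterate_succ_apply', hUnorm, ih]
  have hTU : ∀ q y, (T ^ q) (U^[q] y) = y := by
    intro q
    induction q with
    | zero => intro y; rfl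
    | succ q ih =>
      intro y
      rw [pow_succ, ContinuousLinearMap.mul_apply, Function.iterate_succ_apply', hU, ih]
  have hTq : ∀ q y, ‖(T ^ q) y‖ = ‖y‖ := by
    intro q
    induction q with
    | zero => intro y; rfl
    | succ q ih => intro y; rw [pow_succ, ContinuousLinearMap.mul_apply, ih, hTnorm]
  -- recurrence
  obtain ⟨q, hq, hrec⟩ : ∃ q : ℕ, 1 ≤ q ∧ ∀ y : M, ‖(T ^ q) y - y‖ ≤ 1 / 4 * ‖y‖ := by
    obtain ⟨T', -, ρ, hρ, hlim'⟩ := (isCompact_closedBall (0 : M →L[𝕂] M) 1).tendsto_subseq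
      (x := fun q : ℕ => T ^ q) (fun q => by
        rw [mem_closedBall_zero_iff]
        refine ContinuousLinearMap.opNorm_le_bound _ zero_le_one fun y => ?_
        rw [hTq, one_mul])
    have hcau := hlim'.cauchySeq
    rw [Metric.cauchySeq_iff'] at hcau
    obtain ⟨N, hN⟩ := hcau (1 / 4) (by norm_num)
    have h4 := hN (N + 1) (Nat.le_succ N)
    have h5 : ρ N < ρ (N + 1) := hρ (Nat.lt_succ_self N)
    refine ⟨ρ (N + 1) - ρ N, by omega, fun y => ?_⟩
    have h6 : (T ^ ρ (N + 1)) y = (T ^ ρ N) ((T ^ (ρ (N + 1) - ρ N)) y) := by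
      rw [← ContinuousLinearMap.mul_apply, ← pow_add]
      congr 3
      omega
    have h7 : ‖(T ^ (ρ (N + 1) - ρ N)) y - y‖ = ‖(T ^ ρ (N + 1) - T ^ ρ N) y‖ := by
      rw [ContinuousLinearMap.sub_apply, h6, ← map_sub, hTq]
    rw [h7]
    refine (ContinuousLinearMap.le_opNorm _ _).trans ?_
    refine mul_le_mul_of_nonneg_right ?_ (norm_nonneg _)
    rw [dist_eq_norm] at h4
    exact h4.le
  have hUrec : ∀ y : M, ‖U^[q] y - y‖ ≤ 1 / 4 * ‖y‖ := by
    intro y
    have h4 := hrec (U^[q] y)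
    rw [hTU, hUq] at h4
    rwa [norm_sub_rev] at h4
  have hRq : ∀ (p : ℕ) (y : M), Tendsto (fun k => ((R (φ k)) ^ p) (y : X)) atTop
      (𝓝 ((U^[p] y : M) : X)) := by
    intro p
    induction p with
    | zero => intro y; exact tendsto_const_nhds
    | succ p ih =>
      intro y
      have h4 := hRlim (U (U^[p] y))
      rw [hU] at h4
      have h5 : Tendsto (fun k => R (φ k) (((R (φ k)) ^ p) (y : X) - ((U^[p] y : M) : X))) atTop
          (𝓝 0) := by
        rw [tendsto_zero_iff_norm_tendsto_zero]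
        have h6 := (ih y).sub (tendsto_const_nhds (x := ((U^[p] y : M) : X)))
        rw [sub_self] at h6
        refine squeeze_zero (fun k => norm_nonneg _) (fun k => ?_)
          (tendsto_zero_iff_norm_tendsto_zero.mp h6)
        refine ((R (φ k)).le_opNorm _).trans ?_
        exact mul_le_of_le_one_left (norm_nonneg _) (hR1 _)
      have h6 := h5.add h4
      rw [zero_add] at h6
      rw [Function.iterate_succ_apply']
      refine h6.congr fun k => ?_
      rw [← map_add, sub_add_cancel, pow_succ', ContinuousLinearMap.mul_apply]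
  have hfin := tendsto_avg al (fun k j => ((R (φ k)) ^ q) (em j : X))
    (fun j => ((U^[q] (em j) : M) : X)) (fun j => hRq q (em j))
  have hle : ‖avg al (fun j => ((U^[q] (em j) : M) : X))‖ ≤ 1 / 2 := by
    refine le_of_tendsto hfin.norm (Eventually.of_forall fun k => ?_)
    obtain ⟨q', rfl⟩ : ∃ q', q = q' + 1 := ⟨q - 1, by omega⟩
    have h4 := h3 ((R (φ k)) ^ (q' + 1)) ((hR _).pow q') (by
      refine (norm_pow_le' _ (Nat.succ_pos _)).trans ?_
      exact pow_le_one₀ (norm_nonneg _) (hR1 _))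
    simp only [hem]
    exact h4
  have hone : avg al e = 1 := by
    unfold avg
    simp only [h1, if_true]
    rw [sum_const, card_univ, nsmul_eq_mul, mul_one, inv_mul_cancel₀ card_ne]
  have hdiff : ‖avg al (fun j => ((U^[q] (em j) : M) : X) - e j)‖ ≤ 1 / 4 := by
    refine norm_avg_le al _ _ fun j => ?_
    have h4 := h2 j j (((U^[q] (em j) : M) : X) - e j)
    have h5 : ‖((U^[q] (em j) : M) : X) - e j‖ ≤ 1 / 4 * ‖e j‖ := by
      have := hUrec (em j)
      rw [← hem j, ← Submodule.coe_sub]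
      exact this
    have h6 := h4.trans h5
    exact le_of_mul_le_mul_right h6 (hpos j)
  have hsplit : avg al e = avg al (fun j => ((U^[q] (em j) : M) : X)) -
      avg al (fun j => ((U^[q] (em j) : M) : X) - e j) := by
    unfold avg
    rw [← mul_sub, ← sum_sub_distrib]
    congr 1
    refine sum_congr rfl fun j _ => ?_
    rw [map_sub]; ring
  have hfinal : ‖avg al e‖ ≤ 1 / 2 + 1 / 4 := by
    rw [hsplit]
    exact (norm_sub_le _ _).trans (add_le_add hle hdiff)
  rw [hone, norm_one] at hfinal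
  norm_num at hfinal

end General

end Pool.Agent.Lib.MP_ffba67_an_b
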