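import Pool.Agent.Lib.MP_ffba67_an_b.Tele
import Pool.Agent.Lib.MP_ffba67_an_b.Key

/-!
# Clarkson's inequality in `ℓ_8` and the key inequality for the space `X`
-/

set_option autoImplicit false

open Finset Filter
open scoped ENNReal Topology

namespace Pool.Agent.Lib.MP_ffba67_an_b

variable (𝕂 : Type) [RCLike 𝕂]

variable {𝕂}

lemma clarkson_scalar (a b : 𝕂) :
    ‖(2 : 𝕂)⁻¹ • (a + b)‖ ^ 8 + ‖(2 : 𝕂)⁻¹ • (a - b)‖ ^ 8 ≤ (‖a‖ ^ 8 + ‖b‖ ^ 8) / 2 := by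
  have h2 : ‖(2 : 𝕂)‖ = 2 := by
    rw [show (2 : 𝕂) = ((2 : ℕ) : 𝕂) by norm_num, RCLike.norm_natCast]; norm_num
  have hpar := parallelogram_law_with_norm 𝕂 a b
  rw [norm_smul, norm_smul, norm_inv, h2]
  set s := (‖a + b‖ / 2) ^ 2 with hs
  set t := (‖a - b‖ / 2) ^ 2 with ht
  have hs0 : 0 ≤ s := by positivity
  have ht0 : 0 ≤ t := by positivity
  have hst : s + t = (‖a‖ ^ 2 + ‖b‖ ^ 2) / 2 := by
    rw [hs, ht]; nlinarith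
  have h3 : (2⁻¹ * ‖a + b‖) ^ 8 = s ^ 4 := by rw [hs]; ring
  have h4 : (2⁻¹ * ‖a - b‖) ^ 8 = t ^ 4 := by rw [ht]; ring
  rw [h3, h4]
  have h5 : s ^ 4 + t ^ 4 ≤ (s + t) ^ 4 := by
    have : 0 ≤ 4 * s ^ 3 * t + 6 * s ^ 2 * t ^ 2 + 4 * s * t ^ 3 := by positivity
    nlinarith
  have h6 : ((‖a‖ ^ 2 + ‖b‖ ^ 2) / 2) ^ 4 ≤ ((‖a‖ ^ 2) ^ 4 + (‖b‖ ^ 2) ^ 4) / 2 := by
    set A := ‖a‖ ^ 2
    set B := ‖b‖ ^ 2
    have hA : 0 ≤ A := by positivity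
    have hB : 0 ≤ B := by positivity
    have h7 : ((A + B) / 2) ^ 2 ≤ (A ^ 2 + B ^ 2) / 2 := by nlinarith [sq_nonneg (A - B)]
    have h8 : ((A ^ 2 + B ^ 2) / 2) ^ 2 ≤ ((A ^ 2) ^ 2 + (B ^ 2) ^ 2) / 2 := by
      nlinarith [sq_nonneg (A ^ 2 - B ^ 2)]
    have h9 : (((A + B) / 2) ^ 2) ^ 2 ≤ ((A ^ 2 + B ^ 2) / 2) ^ 2 :=
      pow_le_pow_left₀ (by positivity) h7 2
    nlinarith
  calc s ^ 4 + t ^ 4 ≤ (s + t) ^ 4 := h5
    _ = ((‖a‖ ^ 2 + ‖b‖ ^ 2) / 2) ^ 4 := by rw [hst]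
    _ ≤ ((‖a‖ ^ 2) ^ 4 + (‖b‖ ^ 2) ^ 4) / 2 := h6
    _ = (‖a‖ ^ 8 + ‖b‖ ^ 8) / 2 := by ring

lemma summable_pow (f : ell 𝕂) : Summable fun i => ‖f i‖ ^ 8 := by
  have h := (lp.memℓp f).summable (by norm_num)
  rw [eight_toReal] at h
  have h8 : (8 : ℝ) = ((8 : ℕ) : ℝ) := by norm_num
  rw [h8] at h
  simpa only [Real.rpow_natCast] using h

variable (𝕂)

lemma clarkson_ell : Clarkson 𝕂 (ell 𝕂) := by
  intro x y
  rw [norm_pow_eq, norm_pow_eq, norm_pow_eq, norm_pow_eq, ← Summable.tsum_add (summable_pow _)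
    (summable_pow _), ← Summable.tsum_add (summable_pow _) (summable_pow _), ← tsum_div_const]
  refine Summable.tsum_le_tsum (fun i => ?_) ((summable_pow _).add (summable_pow _))
    (((summable_pow _).add (summable_pow _)).div_const 2)
  simp only [lp.coeFn_smul, lp.coeFn_add, lp.coeFn_sub, Pi.smul_apply, Pi.add_apply, Pi.sub_apply]
  exact clarkson_scalar _ _

lemma clarkson_XX : Clarkson 𝕂 (XX 𝕂) := by
  intro x y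
  exact clarkson_ell 𝕂 (x : ell 𝕂) (y : ell 𝕂)

lemma exists_small : ∃ n : ℕ, 16 * (3 / 4 : ℝ) ^ n ≤ 1 / 2 := by
  refine ⟨13, by norm_num⟩

lemma card_JJ (n : ℕ) : Fintype.card (Fin (n + 1) → V) = 16 ^ (n + 1) := by
  rw [Fintype.card_fun, Fintype.card_fin]
  congr 1

/-- All the data needed to define the ideal. -/
theorem exists_key : ∃ (J : Type) (_ : Fintype J) (_ : DecidableEq J) (_ : Nonempty J)
    (e : J → XX 𝕂) (al : J → XX 𝕂 →L[𝕂] 𝕂) (M : Submodule 𝕂 (XX 𝕂))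
    (_ : FiniteDimensional 𝕂 M) (em : J → M),
    (∀ j, (em j : XX 𝕂) = e j) ∧
    (∀ i j, al i (e j) = if i = j then 1 else 0) ∧
    (∀ i j x, ‖al i x‖ * ‖e j‖ ≤ ‖x‖) ∧
    ∃ c : ℝ, 1 < c ∧ ∀ (R : XX 𝕂 →L[𝕂] XX 𝕂) (S : M →L[𝕂] M), FinRank R → ‖R‖ ≤ 1 → ‖S‖ ≤ 1 →
      c * ‖avg al (fun j => R (S (em j)))‖ ≤ 1 := by
  obtain ⟨n, hn⟩ := exists_small
  have hmem : ∀ j, e 𝕂 n j ∈ Submodule.span 𝕂 (Set.range (e 𝕂 n)) :=
    fun j => Submodule.subset_span ⟨j, rfl⟩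
  refine ⟨Fin (n + 1) → V, inferInstance, inferInstance, inferInstance, e 𝕂 n, al 𝕂 n,
    Submodule.span 𝕂 (Set.range (e 𝕂 n)), FiniteDimensional.span_of_finite 𝕂 (Set.finite_range _),
    fun j => ⟨e 𝕂 n j, hmem j⟩, fun j => rfl, ?_, ?_, ?_⟩
  · intro i j
    exact fA_vec_self 𝕂 n i j
  · intro i j x
    exact fA_norm 𝕂 n i j x x.2
  · refine key_general (clarkson_XX 𝕂) (e 𝕂 n) (al 𝕂 n) (fun i j => fA_vec_self 𝕂 n i j)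
      (fun i j x => fA_norm 𝕂 n i j x x.2) ?_ _ rfl _ (fun j => rfl)
    intro T hT hT1
    have h := norm_beta_le 𝕂 n T hT
    have h2 : avg (al 𝕂 n) (fun j => T (e 𝕂 n j)) = beta 𝕂 n T := by
      unfold avg beta
      rw [card_JJ]
    rw [h2]
    refine h.trans ((mul_le_of_le_one_left (by positivity) hT1).trans hn)

end Pool.Agent.Lib.MP_ffba67_an_b
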