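import Pool.Agent.Lib.MP_ffba67_an_b.Fail
import Pool.Agent.Lib.MP_ffba67_an_b.Clark

/-!
# A maximal Banach ideal without the local reflexivity principle

Negative answer to Q1: over `ℝ` and over `ℂ` there is a maximal Banach ideal `(𝔄, 𝐀)` which does not
satisfy the `𝔄`-LRP.

The ideal is `𝔏` with an equivalent ideal norm `𝐀(v) = max(‖v‖, c · Ψ(v))`, where
`Ψ(v) = sup { |N⁻¹ ∑_j α_j(R v S e_j)| }` over contractions `S : M → U` and finite rank contractions
`R : Z → X`. Here `X` is a closed subspace of `ℓ_8` without the approximation property (a new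
explicit example of Enflo-Davie type, with a telescoping trace), `M` is the span of the vectors
`e_j` of one fixed level, and `c > 1` exists by uniform convexity of `X`.
-/

set_option autoImplicit false

namespace Pool.Agent.Lib.MP_ffba67_an_b.Alt

open Pool.Agent.Lib.MP_ffba67_an_b

theorem result : ∀ (𝕂 : Type) [RCLike 𝕂],
    ∃ A : PreIdeal 𝕂, A.IsBanachIdeal ∧ A.IsMaximal ∧ ¬ A.LRP := by
  intro 𝕂 _
  obtain ⟨J, hJ1, hJ2, hJ3, e, al, M, hM, em, hem, h1, h2, c, hc, hkey⟩ := exists_key 𝕂
  let K : KeyData 𝕂 (XX 𝕂) :=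
    { J := J, e := e, al := al, M := M, em := em, hem := hem, h1 := h1, h2 := h2, c := c,
      hc := hc, key := hkey }
  exact ⟨K.ideal, K.ideal_isBanachIdeal, K.ideal_isMaximal, K.not_LRP⟩

end Pool.Agent.Lib.MP_ffba67_an_b.Alt
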