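import Mathlib

/-!
# The building block: quadratic signs on `(ℤ/2)^4`
-/

set_option autoImplicit false

namespace Pool.Agent.Lib.MP_ffba67_an_b

/-- The group `(ℤ/2)^4`. -/
abbrev V : Type := ZMod 2 × ZMod 2 × ZMod 2 × ZMod 2

/-- The group `(ℤ/2)^6` of coefficients of quadratic forms. -/
abbrev Kap : Type := ZMod 2 × ZMod 2 × ZMod 2 × ZMod 2 × ZMod 2 × ZMod 2

/-- The sign `(-1)^x`. -/
def sg (x : ZMod 2) : ℤ := if x = 0 then 1 else -1

lemma sg_zero : sg 0 = 1 := rfl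

lemma sg_add (x y : ZMod 2) : sg (x + y) = sg x * sg y := by
  revert x y; decide

lemma sg_mul_self (x : ZMod 2) : sg x * sg x = 1 := by
  revert x; decide

lemma abs_sg (x : ZMod 2) : |sg x| = 1 := by
  revert x; decide

lemma sum_sg : ∑ x : ZMod 2, sg x = 0 := by decide

/-- The quadratic form with coefficients `κ` plus the linear form `a`, evaluated at `b`. -/
def form (κ : Kap) (a b : V) : ZMod 2 :=
  κ.1 * (b.1 * b.2.1) + κ.2.1 * (b.1 * b.2.2.1) + κ.2.2.1 * (b.1 * b.2.2.2) +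
    κ.2.2.2.1 * (b.2.1 * b.2.2.1) + κ.2.2.2.2.1 * (b.2.1 * b.2.2.2) +
    κ.2.2.2.2.2 * (b.2.2.1 * b.2.2.2) +
    (a.1 * b.1 + a.2.1 * b.2.1 + a.2.2.1 * b.2.2.1 + a.2.2.2 * b.2.2.2)

/-- The sign of the form. -/
def ψ (κ : Kap) (a b : V) : ℤ := sg (form κ a b)

lemma form_add (κ κ' : Kap) (a a' b : V) :
    form (κ + κ') (a + a') b = form κ a b + form κ' a' b := by
  simp only [form, Prod.fst_add, Prod.snd_add]
  ring

lemma ψ_mul (κ κ' : Kap) (a a' b : V) : ψ κ a b * ψ κ' a' b = ψ (κ + κ') (a + a') b := by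
  rw [ψ, ψ, ψ, form_add, sg_add]

lemma form_zero (b : V) : form 0 0 b = 0 := by
  simp [form]

lemma ψ_zero (b : V) : ψ 0 0 b = 1 := by
  rw [ψ, form_zero]; rfl

lemma abs_ψ (κ : Kap) (a b : V) : |ψ κ a b| = 1 := abs_sg _

lemma card_V : Fintype.card V = 16 := by decide

/-- The crucial cancellation in a block with non-zero quadratic part. -/
lemma block_quad : ∀ κ : Kap, κ ≠ 0 → ∀ a : V, |∑ b : V, ψ κ a b| ≤ 8 := by
  decide +kernel

lemma block_lin : ∀ a : V, a ≠ 0 → ∑ b : V, ψ 0 a b = 0 := by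
  decide +kernel

lemma block_dual : ∀ b : V, b ≠ 0 → ∑ a : V, ψ 0 a b = 0 := by
  decide +kernel

end Pool.Agent.Lib.MP_ffba67_an_b
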