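import Mathlib

/-!
# Banach operator ideals, maximality, and the `𝔄`-local reflexivity principle

All Banach spaces are bundled, over a fixed field `𝕂` which is `ℝ` or `ℂ`.
-/

set_option autoImplicit false

open Filter
open scoped Topology

namespace Pool.Agent.Lib.MP_ffba67_an_b

/-- A Banach space over `𝕂`. -/
structure Ban (𝕂 : Type) [RCLike 𝕂] where
  /-- the points -/
  pts : Type
  /-- the norm -/
  [grp : NormedAddCommGroup pts]
  /-- the scalar multiplication -/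
  [spc : NormedSpace 𝕂 pts]
  /-- completeness -/
  [cpl : CompleteSpace pts]

attribute [instance] Ban.grp Ban.spc Ban.cpl

variable {𝕂 : Type} [RCLike 𝕂]

/-- `𝔏(X, Y)`: the bounded linear operators. -/
def Op (X Y : Ban 𝕂) : Type := X.pts →L[𝕂] Y.pts

/-- The operator norm. -/
noncomputable instance instOpGrp (X Y : Ban 𝕂) : NormedAddCommGroup (Op X Y) :=
  ContinuousLinearMap.toNormedAddCommGroup (E := X.pts) (F := Y.pts) (𝕜 := 𝕂) (𝕜₂ := 𝕂)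
    (σ₁₂ := RingHom.id 𝕂)

noncomputable instance instOpSpc (X Y : Ban 𝕂) : NormedSpace 𝕂 (Op X Y) :=
  ContinuousLinearMap.toNormedSpace (E := X.pts) (F := Y.pts) (𝕜 := 𝕂) (𝕜₂ := 𝕂)
    (σ₁₂ := RingHom.id 𝕂)

/-- The value `T x`. -/
def Op.app {X Y : Ban 𝕂} (T : Op X Y) (x : X.pts) : Y.pts :=
  DFunLike.coe (F := X.pts →L[𝕂] Y.pts) T x

/-- The composition `R T`. -/
def Op.comp {X Y Z : Ban 𝕂} (R : Op Y Z) (T : Op X Y) : Op X Z :=
  ContinuousLinearMap.comp (M₁ := X.pts) (M₂ := Y.pts) (M₃ := Z.pts) R T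

/-- The operator `T` has finite rank: the (span of the) range is finite-dimensional. -/
def Op.FinRank {X Y : Ban 𝕂} (T : Op X Y) : Prop :=
  FiniteDimensional 𝕂 (Submodule.span 𝕂 (Set.range T.app))

variable (𝕂) in
/-- The one-dimensional space `𝕂`. -/
noncomputable def Ban.scalars : Ban 𝕂 := ⟨𝕂⟩

variable (𝕂) in
/-- The identity of `𝕂`. -/
noncomputable def Op.idScalars : Op (Ban.scalars 𝕂) (Ban.scalars 𝕂) := ContinuousLinearMap.id 𝕂 𝕂

/-- Components `𝔄(X, Y)`, with a function `𝐀` on operators whose values matter only on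
`𝔄(X, Y)`. -/
structure PreIdeal (𝕂 : Type) [RCLike 𝕂] where
  /-- the component `𝔄(X, Y)` -/
  component : ∀ X Y : Ban 𝕂, Submodule 𝕂 (Op X Y)
  /-- the ideal norm `𝐀` -/
  nrm : ∀ {X Y : Ban 𝕂}, Op X Y → ℝ

/-- `T ∈ 𝔄(X, Y)`. -/
def PreIdeal.Mem (A : PreIdeal 𝕂) {X Y : Ban 𝕂} (T : Op X Y) : Prop := T ∈ A.component X Y

/-- `𝐀` is a norm on each `𝔄(X, Y)`, which dominates the operator norm. -/
structure PreIdeal.IsNorm (A : PreIdeal 𝕂) : Prop where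
  add_le : ∀ (X Y : Ban 𝕂) (S T : Op X Y), A.Mem S → A.Mem T → A.nrm (S + T) ≤ A.nrm S + A.nrm T
  smul_eq : ∀ (X Y : Ban 𝕂) (a : 𝕂) (T : Op X Y), A.Mem T → A.nrm (a • T) = ‖a‖ * A.nrm T
  le_nrm : ∀ (X Y : Ban 𝕂) (T : Op X Y), A.Mem T → ‖T‖ ≤ A.nrm T

/-- `(𝔄(X, Y), 𝐀)` is complete: every Cauchy sequence converges. -/
def PreIdeal.IsComplete (A : PreIdeal 𝕂) : Prop :=
  ∀ (X Y : Ban 𝕂) (T : ℕ → Op X Y), (∀ k, A.Mem (T k)) →
    (∀ ε > 0, ∃ N, ∀ i ≥ N, ∀ j ≥ N, A.nrm (T i - T j) < ε) →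
    ∃ S : Op X Y, A.Mem S ∧ Tendsto (fun k => A.nrm (T k - S)) atTop (𝓝 0)

/-- The ideal property, with the norm inequality. -/
def PreIdeal.IsIdeal (A : PreIdeal 𝕂) : Prop :=
  ∀ (W X Y Z : Ban 𝕂) (R : Op Y Z) (T : Op X Y) (S : Op W X), A.Mem T →
    A.Mem (R.comp (T.comp S)) ∧ A.nrm (R.comp (T.comp S)) ≤ ‖R‖ * A.nrm T * ‖S‖

/-- `(𝔄, 𝐀)` is a Banach operator ideal. -/
structure PreIdeal.IsBanachIdeal (A : PreIdeal 𝕂) : Prop where
  finRank : ∀ (X Y : Ban 𝕂) (T : Op X Y), T.FinRank → A.Mem T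
  isNorm : A.IsNorm
  isComplete : A.IsComplete
  nrm_id : A.nrm (Op.idScalars 𝕂) = 1
  isIdeal : A.IsIdeal

/-- A finite-dimensional subspace of `X`. -/
structure FinDim (X : Ban 𝕂) where
  /-- the subspace -/
  sub : Submodule 𝕂 X.pts
  fin : FiniteDimensional 𝕂 sub

/-- `M`, as a Banach space. -/
noncomputable def FinDim.ban {X : Ban 𝕂} (M : FinDim X) : Ban 𝕂 :=
  letI := M.fin
  letI := FiniteDimensional.complete 𝕂 M.sub
  ⟨M.sub⟩

/-- The inclusion `J_M : M → X`. -/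
noncomputable def FinDim.incl {X : Ban 𝕂} (M : FinDim X) : Op M.ban X := M.sub.subtypeL

/-- A closed subspace of `Y` of finite codimension. -/
structure FinCodim (Y : Ban 𝕂) where
  /-- the subspace -/
  sub : Submodule 𝕂 Y.pts
  closed : IsClosed (sub : Set Y.pts)
  fin : FiniteDimensional 𝕂 (Y.pts ⧸ sub)

/-- `Y / L`, as a Banach space (with the quotient norm). -/
noncomputable def FinCodim.quot {Y : Ban 𝕂} (L : FinCodim Y) : Ban 𝕂 :=
  letI := L.closed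
  ⟨Y.pts ⧸ L.sub⟩

/-- The quotient map `Q_L : Y → Y / L`. -/
noncomputable def FinCodim.map {Y : Ban 𝕂} (L : FinCodim Y) : Op Y L.quot := L.sub.mkQL

/-- The set of the numbers `𝐀(Q_L T J_M)`. -/
def PreIdeal.localNorms (A : PreIdeal 𝕂) {X Y : Ban 𝕂} (T : Op X Y) : Set ℝ :=
  {a | ∃ (M : FinDim X) (L : FinCodim Y), a = A.nrm (L.map.comp (T.comp M.incl))}

/-- Maximality: `T ∈ 𝔄(X, Y)` iff the numbers `𝐀(Q_L T J_M)` are bounded, and then `𝐀(T)` is their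
supremum. -/
def PreIdeal.IsMaximal (A : PreIdeal 𝕂) : Prop :=
  ∀ (X Y : Ban 𝕂) (T : Op X Y), (A.Mem T ↔ BddAbove (A.localNorms T)) ∧
    (A.Mem T → IsLUB (A.localNorms T) (A.nrm T))

/-- The dual space `Y'`. -/
noncomputable def Ban.dual (Y : Ban 𝕂) : Ban 𝕂 := ⟨StrongDual 𝕂 Y.pts⟩

/-- The value `f(y)` of the functional `f ∈ Y'` at `y ∈ Y`. -/
def Ban.eval {Y : Ban 𝕂} (f : Y.dual.pts) (y : Y.pts) : 𝕂 :=
  DFunLike.coe (F := StrongDual 𝕂 Y.pts) f y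

/-- `z = j_Y(y)` for `z ∈ Y''` and `y ∈ Y`, where `j_Y : Y → Y''` is the canonical embedding:
`z(f) = f(y)` for all `f ∈ Y'`. -/
def Ban.IsEmb {Y : Ban 𝕂} (z : Y.dual.dual.pts) (y : Y.pts) : Prop :=
  ∀ f : Y.dual.pts, Ban.eval z f = Ban.eval f y

/-- The `𝔄`-local reflexivity principle. -/
def PreIdeal.LRP (A : PreIdeal 𝕂) : Prop :=
  ∀ (E Y : Ban 𝕂), FiniteDimensional 𝕂 E.pts → ∀ F : FinDim Y.dual, ∀ ε : ℝ, 0 < ε →
    ∀ T : Op E Y.dual.dual, ∃ S : Op E Y, A.nrm S ≤ (1 + ε) * A.nrm T ∧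
      (∀ x, ∀ f ∈ F.sub, Ban.eval f (S.app x) = Ban.eval (T.app x) f) ∧
      (∀ x, (∃ y, Ban.IsEmb (T.app x) y) → Ban.IsEmb (T.app x) (S.app x))

end Pool.Agent.Lib.MP_ffba67_an_b
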