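import Pool.Agent.Lib.MP_ffba67_an_b.FailAbs

/-!
# The local reflexivity principle fails for the ideal
-/

set_option autoImplicit false

open Finset Filter
open scoped Topology ENNReal

namespace Pool.Agent.Lib.MP_ffba67_an_b

variable (𝕂 : Type) [RCLike 𝕂] (X₀ : Type) [NormedAddCommGroup X₀] [NormedSpace 𝕂 X₀]

/-- The finite-dimensional subspaces of `X₀`. -/
abbrev Om : Type := {N : Submodule 𝕂 X₀ // FiniteDimensional 𝕂 N}

instance (N : Om 𝕂 X₀) : FiniteDimensional 𝕂 N.1 := N.2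

instance (N : Om 𝕂 X₀) : CompleteSpace N.1 := FiniteDimensional.complete 𝕂 N.1

instance : Nonempty (Om 𝕂 X₀) := ⟨⟨⊥, inferInstance⟩⟩

instance : IsDirected (Om 𝕂 X₀) (· ≤ ·) :=
  ⟨fun a b => ⟨⟨a.1 ⊔ b.1, inferInstance⟩, le_sup_left (a := a.1), le_sup_right (a := a.1)⟩⟩

/-- The `ℓ_1`-sum of all finite-dimensional subspaces of `X₀`. -/
abbrev YY : Type := lp (fun N : Om 𝕂 X₀ => N.1) 1

variable {𝕂 X₀}

lemma YY_summable (y : YY 𝕂 X₀) : Summable fun N => ‖y N‖ := by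
  have h := (lp.memℓp y).summable (by norm_num)
  simpa using h

lemma YY_norm (y : YY 𝕂 X₀) : ‖y‖ = ∑' N, ‖y N‖ := by
  rw [lp.norm_eq_tsum_rpow (by norm_num) y]
  simp

/-- Partial sums. -/
noncomputable def sumP (P : Finset (Om 𝕂 X₀)) : YY 𝕂 X₀ →L[𝕂] X₀ :=
  ∑ N ∈ P, N.1.subtypeL.comp (lp.evalCLM 𝕂 (fun N : Om 𝕂 X₀ => N.1) 1 N)

lemma sumP_apply (P : Finset (Om 𝕂 X₀)) (y : YY 𝕂 X₀) : sumP P y = ∑ N ∈ P, (y N : X₀) := by
  unfold sumP
  rw [_root_.sum_apply]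
  rfl

lemma norm_sumP_le (P : Finset (Om 𝕂 X₀)) : ‖sumP P‖ ≤ 1 := by
  refine ContinuousLinearMap.opNorm_le_bound _ zero_le_one fun y => ?_
  rw [sumP_apply, one_mul, YY_norm]
  refine (norm_sum_le _ _).trans ?_
  exact (YY_summable y).sum_le_tsum P fun N _ => norm_nonneg _

lemma sumP_finRank (P : Finset (Om 𝕂 X₀)) : FinRank (sumP P) := by
  unfold FinRank
  have h : FiniteDimensional 𝕂 (P.sup fun N : Om 𝕂 X₀ => N.1 : Submodule 𝕂 X₀) :=
    Submodule.finiteDimensional_finset_sup P _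
  refine Submodule.finiteDimensional_of_le
    (S₂ := (P.sup fun N : Om 𝕂 X₀ => N.1 : Submodule 𝕂 X₀)) ?_
  rintro _ ⟨y, rfl⟩
  rw [ContinuousLinearMap.coe_coe, sumP_apply]
  refine Submodule.sum_mem _ fun N hN => ?_
  exact (Finset.le_sup (f := fun N : Om 𝕂 X₀ => N.1) hN) (y N).2

variable [CompleteSpace X₀]

lemma YY_summable' (y : YY 𝕂 X₀) : Summable fun N => (y N : X₀) :=
  Summable.of_norm (YY_summable y)

variable (𝕂 X₀)

/-- The canonical map from the `ℓ_1`-sum to `X₀`. -/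
noncomputable def Sig : YY 𝕂 X₀ →L[𝕂] X₀ :=
  LinearMap.mkContinuous
    { toFun := fun y => ∑' N, (y N : X₀)
      map_add' := fun y z => by
        rw [← Summable.tsum_add (YY_summable' y) (YY_summable' z)]
        rfl
      map_smul' := fun a y => by
        rw [RingHom.id_apply, ← Summable.tsum_const_smul a (YY_summable' y)]
        rfl } 1 (fun y => by
      rw [one_mul, YY_norm]
      exact norm_tsum_le_tsum_norm (YY_summable y))

variable {𝕂 X₀}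

lemma Sig_apply (y : YY 𝕂 X₀) : Sig 𝕂 X₀ y = ∑' N, (y N : X₀) := rfl

lemma tendsto_sumP (y : YY 𝕂 X₀) : Tendsto (fun P => sumP P y) atTop (𝓝 (Sig 𝕂 X₀ y)) := by
  have h := (YY_summable' y).hasSum
  rw [Sig_apply]
  refine Tendsto.congr (fun P => ?_) h
  rw [sumP_apply]

open Classical in
lemma Sig_single (N : Om 𝕂 X₀) (x : N.1) : Sig 𝕂 X₀ (lp.single 1 N x) = x := by
  rw [Sig_apply, tsum_eq_single N]
  · rw [lp.single_apply_self]
  · intro N' hN'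
    rw [lp.single_apply_ne _ _ _ hN']
    rfl

open Classical in
/-- The approximating values. -/
noncomputable def gg (x : X₀) (f : StrongDual 𝕂 (YY 𝕂 X₀)) (N : Om 𝕂 X₀) : 𝕂 :=
  if h : x ∈ N.1 then f (lp.single 1 N ⟨x, h⟩) else 0

lemma norm_gg_le (x : X₀) (f : StrongDual 𝕂 (YY 𝕂 X₀)) (N : Om 𝕂 X₀) :
    ‖gg x f N‖ ≤ ‖x‖ * ‖f‖ := by
  unfold gg
  split_ifs with h
  · refine (f.le_opNorm _).trans ?_
    rw [lp.norm_single (by norm_num), mul_comm]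
    rfl
  · rw [norm_zero]; positivity

lemma eventually_mem (x : X₀) : ∀ᶠ N : Om 𝕂 X₀ in atTop, x ∈ N.1 := by
  filter_upwards [eventually_ge_atTop (⟨Submodule.span 𝕂 {x}, inferInstance⟩ : Om 𝕂 X₀)] with N hN
  exact hN (Submodule.mem_span_singleton_self x)

variable (𝕂 X₀) in
/-- The ultrafilter. -/
noncomputable def UU : Ultrafilter (Om 𝕂 X₀) := Ultrafilter.of atTop

lemma UU_le : (UU 𝕂 X₀ : Filter (Om 𝕂 X₀)) ≤ atTop := Ultrafilter.of_le _

lemma exists_lim (x : X₀) (f : StrongDual 𝕂 (YY 𝕂 X₀)) :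
    ∃ l : 𝕂, Tendsto (gg x f) (UU 𝕂 X₀) (𝓝 l) := by
  have hc := isCompact_closedBall (0 : 𝕂) (‖x‖ * ‖f‖)
  obtain ⟨l, -, hl⟩ := hc.ultrafilter_le_nhds ((UU 𝕂 X₀).map (gg x f)) (by
    rw [Ultrafilter.coe_map, le_principal_iff, Filter.mem_map]
    refine univ_mem' fun N => ?_
    rw [Set.mem_preimage, mem_closedBall_zero_iff]
    exact norm_gg_le x f N)
  exact ⟨l, hl⟩

/-- The limit. -/
noncomputable def lg (x : X₀) (f : StrongDual 𝕂 (YY 𝕂 X₀)) : 𝕂 := (exists_lim x f).choose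

lemma tendsto_gg (x : X₀) (f : StrongDual 𝕂 (YY 𝕂 X₀)) :
    Tendsto (gg x f) (UU 𝕂 X₀) (𝓝 (lg x f)) := (exists_lim x f).choose_spec

lemma norm_lg_le (x : X₀) (f : StrongDual 𝕂 (YY 𝕂 X₀)) : ‖lg x f‖ ≤ ‖x‖ * ‖f‖ :=
  le_of_tendsto (tendsto_gg x f).norm (Eventually.of_forall fun N => norm_gg_le x f N)

lemma lg_eq_of_eventually (x : X₀) (f : StrongDual 𝕂 (YY 𝕂 X₀)) (g : Om 𝕂 X₀ → 𝕂) (l : 𝕂)
    (h : ∀ᶠ N in atTop, gg x f N = g N) (hl : Tendsto g (UU 𝕂 X₀) (𝓝 l)) : lg x f = l := by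
  refine tendsto_nhds_unique ?_ hl
  exact (tendsto_gg x f).congr' (h.filter_mono UU_le)

lemma lg_add_left (x y : X₀) (f : StrongDual 𝕂 (YY 𝕂 X₀)) : lg (x + y) f = lg x f + lg y f := by
  refine lg_eq_of_eventually _ _ (fun N => gg x f N + gg y f N) _ ?_
    ((tendsto_gg x f).add (tendsto_gg y f))
  filter_upwards [eventually_mem x, eventually_mem y] with N hx hy
  unfold gg
  rw [dif_pos hx, dif_pos hy, dif_pos (N.1.add_mem hx hy), ← map_add, ← lp.single_add]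
  rfl

lemma lg_smul_left (a : 𝕂) (x : X₀) (f : StrongDual 𝕂 (YY 𝕂 X₀)) :
    lg (a • x) f = a • lg x f := by
  refine lg_eq_of_eventually _ _ (fun N => a • gg x f N) _ ?_
    ((tendsto_gg x f).const_smul a)
  filter_upwards [eventually_mem x] with N hx
  unfold gg
  rw [dif_pos hx, dif_pos (N.1.smul_mem a hx), ← map_smul, ← lp.single_smul]
  rfl

lemma lg_add_right (x : X₀) (f g : StrongDual 𝕂 (YY 𝕂 X₀)) : lg x (f + g) = lg x f + lg x g := by
  refine lg_eq_of_eventually _ _ (fun N => gg x f N + gg x g N) _ ?_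
    ((tendsto_gg x f).add (tendsto_gg x g))
  refine Eventually.of_forall fun N => ?_
  unfold gg
  split_ifs with h
  · rfl
  · rw [add_zero]

lemma lg_smul_right (a : 𝕂) (x : X₀) (f : StrongDual 𝕂 (YY 𝕂 X₀)) :
    lg x (a • f) = a • lg x f := by
  refine lg_eq_of_eventually _ _ (fun N => a • gg x f N) _ ?_
    ((tendsto_gg x f).const_smul a)
  refine Eventually.of_forall fun N => ?_
  unfold gg
  split_ifs with h
  · rfl
  · rw [smul_zero]

variable (𝕂 X₀) in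
/-- The `ℓ_1`-sum, bundled. -/
noncomputable def YB : Ban 𝕂 := ⟨YY 𝕂 X₀⟩

variable (𝕂 X₀) in
/-- The embedding of `X₀` into the bidual of the `ℓ_1`-sum. -/
noncomputable def That : X₀ →L[𝕂] (YB 𝕂 X₀).dual.dual.pts :=
  mkThat (W := YB 𝕂 X₀) lg lg_add_left lg_smul_left lg_add_right lg_smul_right norm_lg_le

lemma norm_That_le : ‖That 𝕂 X₀‖ ≤ 1 :=
  norm_mkThat_le _ _ _ _ _ _

lemma That_comp_Sig (x : X₀) (a : X₀ →L[𝕂] 𝕂) :
    Ban.eval (Y := (YB 𝕂 X₀).dual) (That 𝕂 X₀ x) (a.comp (Sig 𝕂 X₀)) = a x := by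
  have h : Ban.eval (Y := (YB 𝕂 X₀).dual) (That 𝕂 X₀ x) (a.comp (Sig 𝕂 X₀)) =
    lg x (a.comp (Sig 𝕂 X₀)) := rfl
  rw [h]
  refine lg_eq_of_eventually _ _ (fun _ => a x) _ ?_ tendsto_const_nhds
  filter_upwards [eventually_mem x] with N hx
  unfold gg
  rw [dif_pos hx, ContinuousLinearMap.comp_apply, Sig_single]

theorem KeyData.not_LRP (K : KeyData 𝕂 X₀) : ¬ K.ideal.LRP :=
  K.not_LRP_of (Y := YB 𝕂 X₀) (That 𝕂 X₀) norm_That_le (Sig 𝕂 X₀) That_comp_Sig atTop sumP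
    norm_sumP_le sumP_finRank tendsto_sumP

end Pool.Agent.Lib.MP_ffba67_an_b
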