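import Pool.Agent.Lib.MP_ffba67_an_b.Maximal

/-!
# The local reflexivity principle fails for the ideal: abstract part
-/

set_option autoImplicit false

open Finset Filter
open scoped Topology ENNReal

namespace Pool.Agent.Lib.MP_ffba67_an_b

variable {𝕂 : Type} [RCLike 𝕂] {X₀ : Type} [NormedAddCommGroup X₀] [NormedSpace 𝕂 X₀]

/-- Bilinear forms as maps into the bidual. -/
noncomputable def mkThat {W : Ban 𝕂}
    (lg : X₀ → StrongDual 𝕂 W.pts → 𝕂) (h1 : ∀ x y f, lg (x + y) f = lg x f + lg y f)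
    (h2 : ∀ (a : 𝕂) x f, lg (a • x) f = a • lg x f)
    (h3 : ∀ x f g, lg x (f + g) = lg x f + lg x g)
    (h4 : ∀ (a : 𝕂) x f, lg x (a • f) = a • lg x f)
    (h5 : ∀ x f, ‖lg x f‖ ≤ ‖x‖ * ‖f‖) : X₀ →L[𝕂] W.dual.dual.pts :=
  LinearMap.mkContinuous (E := X₀) (F := W.dual.dual.pts)
    { toFun := fun x => (LinearMap.mkContinuous (E := StrongDual 𝕂 W.pts) (F := 𝕂)
        { toFun := lg x
          map_add' := h3 x
          map_smul' := fun a f => h4 a x f } ‖x‖ (h5 x) : StrongDual 𝕂 (StrongDual 𝕂 W.pts))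
      map_add' := fun x y => ContinuousLinearMap.ext fun f => h1 x y f
      map_smul' := fun a x => ContinuousLinearMap.ext fun f => h2 a x f } 1 (fun x => by
      rw [one_mul]
      exact LinearMap.mkContinuous_norm_le _ (norm_nonneg _) (h5 x))

lemma norm_mkThat_le {W : Ban 𝕂}
    (lg : X₀ → StrongDual 𝕂 W.pts → 𝕂) (h1 h2 h3 h4 h5) :
    ‖(mkThat lg h1 h2 h3 h4 h5 : X₀ →L[𝕂] W.dual.dual.pts)‖ ≤ 1 :=
  LinearMap.mkContinuous_norm_le _ zero_le_one _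

namespace KeyData

variable (K : KeyData 𝕂 X₀)

lemma nrm_Th_le {W : Type} [NormedAddCommGroup W] [NormedSpace 𝕂 W]
    (Th : X₀ →L[𝕂] W) (hTh : ‖Th‖ ≤ 1) : K.nrm (Th.comp K.M.subtypeL) ≤ 1 := by
  have hc0 : 0 < K.c := zero_lt_one.trans K.hc
  refine max_le ?_ ?_
  · refine (ContinuousLinearMap.opNorm_comp_le _ _).trans ?_
    exact mul_le_one₀ hTh (norm_nonneg _) (Submodule.norm_subtypeL_le _)
  · have hPsi : K.Psi (Th.comp K.M.subtypeL) ≤ K.c⁻¹ := by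
      refine K.Psi_le _ (inv_nonneg.mpr hc0.le) fun S R hR => ?_
      have h := K.key_scaled (R.comp Th) S (hR.comp_right _)
      have h2 : ‖R.comp Th‖ ≤ ‖R‖ :=
        (R.opNorm_comp_le _).trans (mul_le_of_le_one_right (norm_nonneg _) hTh)
      rw [inv_mul_eq_div, le_div_iff₀ hc0, mul_comm]
      exact h.trans (mul_le_mul_of_nonneg_right h2 (norm_nonneg _))
    calc K.c * K.Psi (Th.comp K.M.subtypeL) ≤ K.c * K.c⁻¹ :=
          mul_le_mul_of_nonneg_left hPsi hc0.le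
      _ = 1 := mul_inv_cancel₀ hc0.ne'

lemma c_le_nrm {Y : Type} [NormedAddCommGroup Y] [NormedSpace 𝕂 Y] (Sg : Y →L[𝕂] X₀)
    {ι : Type} (l : Filter ι) [NeBot l] (P : ι → (Y →L[𝕂] X₀)) (hP1 : ∀ i, ‖P i‖ ≤ 1)
    (hP2 : ∀ i, FinRank (P i)) (hP3 : ∀ y, Tendsto (fun i => P i y) l (𝓝 (Sg y)))
    (S : K.M →L[𝕂] Y) (h1 : ∀ j, K.al j (Sg (S (K.em j))) = K.al j (K.e j)) :
    K.c ≤ K.nrm S := by
  have hc0 : 0 < K.c := zero_lt_one.trans K.hc
  have h2 : avg K.al (fun j => Sg (S (K.em j))) = 1 := by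
    rw [← K.avg_e]
    unfold avg
    simp only [h1]
  have h3 : Tendsto (fun i => avg K.al (fun j => P i (S (K.em j)))) l
      (𝓝 (avg K.al (fun j => Sg (S (K.em j))))) := by
    unfold avg
    refine Tendsto.const_mul _ (tendsto_finsetSum _ fun j _ => ?_)
    exact ((K.al j).continuous.tendsto _).comp (hP3 _)
  have h4 : (1 : ℝ) ≤ K.Psi S := by
    have h5 := h3.norm
    rw [h2, norm_one] at h5
    refine le_of_tendsto h5 (Eventually.of_forall fun i => ?_)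
    have h6 := K.le_Psi S (ContinuousLinearMap.id 𝕂 K.M) (P i) (hP2 i)
    refine h6.trans ?_
    refine mul_le_of_le_one_right (K.Psi_nonneg _) ?_
    exact mul_le_one₀ (hP1 i) (norm_nonneg _) ContinuousLinearMap.norm_id_le
  calc K.c = K.c * 1 := by ring
    _ ≤ K.c * K.Psi S := mul_le_mul_of_nonneg_left h4 hc0.le
    _ ≤ K.nrm S := le_max_right _ _

theorem not_LRP_of {Y : Ban 𝕂} (Th : X₀ →L[𝕂] Y.dual.dual.pts) (hTh : ‖Th‖ ≤ 1)
    (Sg : Y.pts →L[𝕂] X₀)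
    (hTS : ∀ (x : X₀) (a : X₀ →L[𝕂] 𝕂), Ban.eval (Y := Y.dual) (Th x) (a.comp Sg) = a x)
    {ι : Type} (l : Filter ι) [NeBot l] (P : ι → (Y.pts →L[𝕂] X₀)) (hP1 : ∀ i, ‖P i‖ ≤ 1)
    (hP2 : ∀ i, FinRank (P i)) (hP3 : ∀ y, Tendsto (fun i => P i y) l (𝓝 (Sg y))) :
    ¬ K.ideal.LRP := by
  intro hLRP
  have : CompleteSpace K.M := FiniteDimensional.complete 𝕂 K.M
  let F : FinDim Y.dual :=
    ⟨Submodule.span 𝕂 (Set.range fun j => ((K.al j).comp Sg : StrongDual 𝕂 Y.pts)),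
      FiniteDimensional.span_of_finite 𝕂 (Set.finite_range _)⟩
  obtain ⟨S, hS1, hS2, -⟩ := hLRP ⟨K.M⟩ Y K.fd F ((K.c - 1) / 2)
    (by have := K.hc; linarith) (Th.comp K.M.subtypeL)
  have hS1' : K.nrm (U := K.M) (Z := Y.pts) S ≤
    (1 + (K.c - 1) / 2) * K.nrm (Th.comp K.M.subtypeL) := hS1
  have hT := K.nrm_Th_le Th hTh
  have hS3 : K.nrm (U := K.M) (Z := Y.pts) S ≤ 1 + (K.c - 1) / 2 := by
    refine hS1'.trans (mul_le_of_le_one_right ?_ hT)
    have := K.hc; linarith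
  have h5 : K.c ≤ K.nrm (U := K.M) (Z := Y.pts) S := by
    refine K.c_le_nrm Sg l P hP1 hP2 hP3 S fun j => ?_
    have h2 : ((K.al j).comp Sg) ((show K.M →L[𝕂] Y.pts from S) (K.em j)) =
        Ban.eval (Y := Y.dual) (Th (K.em j : X₀)) ((K.al j).comp Sg) :=
      hS2 (K.em j) ((K.al j).comp Sg) (Submodule.subset_span ⟨j, rfl⟩)
    rw [ContinuousLinearMap.comp_apply, hTS, K.hem] at h2
    exact h2
  have := K.hc
  linarith

end KeyData

end Pool.Agent.Lib.MP_ffba67_an_b
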