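import Pool.Agent.Lib.MP_ffba67_an_b.Key
import Pool.Agent.Lib.MP_ffba67_an_b.Defs

/-!
# The maximal Banach ideal attached to the key inequality
-/

set_option autoImplicit false

open Finset Filter
open scoped Topology

namespace Pool.Agent.Lib.MP_ffba67_an_b

/-- The data from which the ideal is built. -/
structure KeyData (𝕂 X₀ : Type) [RCLike 𝕂] [NormedAddCommGroup X₀] [NormedSpace 𝕂 X₀] where
  J : Type
  [fin : Fintype J]
  [dec : DecidableEq J]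
  [ne : Nonempty J]
  e : J → X₀
  al : J → X₀ →L[𝕂] 𝕂
  M : Submodule 𝕂 X₀
  [fd : FiniteDimensional 𝕂 M]
  em : J → M
  hem : ∀ j, (em j : X₀) = e j
  h1 : ∀ i j, al i (e j) = if i = j then 1 else 0
  h2 : ∀ i j x, ‖al i x‖ * ‖e j‖ ≤ ‖x‖
  c : ℝ
  hc : 1 < c
  key : ∀ (R : X₀ →L[𝕂] X₀) (S : M →L[𝕂] M), FinRank R → ‖R‖ ≤ 1 → ‖S‖ ≤ 1 →
      c * ‖avg al (fun j => R (S (em j)))‖ ≤ 1

attribute [instance] KeyData.fin KeyData.dec KeyData.ne KeyData.fd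

variable {𝕂 : Type} [RCLike 𝕂] {X₀ : Type} [NormedAddCommGroup X₀] [NormedSpace 𝕂 X₀]

namespace KeyData

variable (K : KeyData 𝕂 X₀)

lemma norm_em_pos (j : K.J) : 0 < ‖K.em j‖ := by
  rw [norm_pos_iff]
  intro h
  have h1 := K.h1 j j
  rw [← K.hem j, h] at h1
  simp at h1

lemma norm_em (j : K.J) : ‖K.em j‖ = ‖K.e j‖ := by
  rw [← K.hem j]; rfl

lemma avg_e : avg K.al K.e = 1 := by
  unfold avg
  simp only [K.h1, if_true]
  rw [sum_const, card_univ, nsmul_eq_mul, mul_one, inv_mul_cancel₀ card_ne]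

section

variable {U Z : Type} [NormedAddCommGroup U] [NormedSpace 𝕂 U]
  [NormedAddCommGroup Z] [NormedSpace 𝕂 Z]

lemma basic (v : U →L[𝕂] Z) (S : K.M →L[𝕂] U) (R : Z →L[𝕂] X₀) :
    ‖avg K.al (fun j => R (v (S (K.em j))))‖ ≤ ‖v‖ * (‖R‖ * ‖S‖) := by
  refine norm_avg_le K.al _ _ fun j => ?_
  have h2 := K.h2 j j (R (v (S (K.em j))))
  have h3 : ‖R (v (S (K.em j)))‖ ≤ ‖R‖ * (‖v‖ * (‖S‖ * ‖K.em j‖)) := by
    refine (R.le_opNorm _).trans ?_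
    refine mul_le_mul_of_nonneg_left ?_ (norm_nonneg _)
    refine (v.le_opNorm _).trans ?_
    exact mul_le_mul_of_nonneg_left (S.le_opNorm _) (norm_nonneg _)
  have h4 := h2.trans h3
  rw [K.norm_em] at h4
  have h5 := K.norm_em_pos j
  rw [K.norm_em] at h5
  refine le_of_mul_le_mul_right ?_ h5
  calc _ ≤ _ := h4
    _ = _ := by ring

/-- The trace-type functional norm `Ψ`. -/
noncomputable def Psi (v : U →L[𝕂] Z) : ℝ :=
  sInf {C : ℝ | 0 ≤ C ∧ ∀ (S : K.M →L[𝕂] U) (R : Z →L[𝕂] X₀), FinRank R →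
    ‖avg K.al (fun j => R (v (S (K.em j))))‖ ≤ C * (‖R‖ * ‖S‖)}

lemma Psi_bddBelow (v : U →L[𝕂] Z) :
    BddBelow {C : ℝ | 0 ≤ C ∧ ∀ (S : K.M →L[𝕂] U) (R : Z →L[𝕂] X₀), FinRank R →
    ‖avg K.al (fun j => R (v (S (K.em j))))‖ ≤ C * (‖R‖ * ‖S‖)} :=
  ⟨0, fun _ h => h.1⟩

lemma Psi_nonempty (v : U →L[𝕂] Z) :
    {C : ℝ | 0 ≤ C ∧ ∀ (S : K.M →L[𝕂] U) (R : Z →L[𝕂] X₀), FinRank R →
    ‖avg K.al (fun j => R (v (S (K.em j))))‖ ≤ C * (‖R‖ * ‖S‖)}.Nonempty :=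
  ⟨‖v‖, norm_nonneg _, fun S R _ => K.basic v S R⟩

lemma Psi_nonneg (v : U →L[𝕂] Z) : 0 ≤ K.Psi v :=
  le_csInf (K.Psi_nonempty v) fun _ h => h.1

lemma Psi_le (v : U →L[𝕂] Z) {C : ℝ} (hC : 0 ≤ C)
    (h : ∀ (S : K.M →L[𝕂] U) (R : Z →L[𝕂] X₀), FinRank R →
      ‖avg K.al (fun j => R (v (S (K.em j))))‖ ≤ C * (‖R‖ * ‖S‖)) : K.Psi v ≤ C :=
  csInf_le (K.Psi_bddBelow v) ⟨hC, h⟩

lemma le_Psi (v : U →L[𝕂] Z) (S : K.M →L[𝕂] U) (R : Z →L[𝕂] X₀) (hR : FinRank R) :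
    ‖avg K.al (fun j => R (v (S (K.em j))))‖ ≤ K.Psi v * (‖R‖ * ‖S‖) := by
  rcases (mul_nonneg (norm_nonneg R) (norm_nonneg S)).eq_or_lt with h0 | h0
  · have h := K.basic v S R
    rw [← h0] at h ⊢
    simpa using h
  · rw [← div_le_iff₀ h0]
    refine le_csInf (K.Psi_nonempty v) fun C hC => ?_
    rw [div_le_iff₀ h0]
    exact hC.2 S R hR

lemma Psi_le_norm (v : U →L[𝕂] Z) : K.Psi v ≤ ‖v‖ :=
  K.Psi_le v (norm_nonneg _) fun S R _ => K.basic v S R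

lemma avg_add (al : K.J → X₀ →L[𝕂] 𝕂) (y z : K.J → X₀) :
    avg al (fun j => y j + z j) = avg al y + avg al z := by
  unfold avg
  simp only [map_add, sum_add_distrib, mul_add]

lemma Psi_add_le (v w : U →L[𝕂] Z) : K.Psi (v + w) ≤ K.Psi v + K.Psi w := by
  refine K.Psi_le _ (add_nonneg (K.Psi_nonneg v) (K.Psi_nonneg w)) fun S R hR => ?_
  simp only [add_apply, map_add]
  rw [K.avg_add, add_mul]
  exact (norm_add_le _ _).trans (add_le_add (K.le_Psi v S R hR) (K.le_Psi w S R hR))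

lemma Psi_smul_le (a : 𝕂) (v : U →L[𝕂] Z) : K.Psi (a • v) ≤ ‖a‖ * K.Psi v := by
  refine K.Psi_le _ (mul_nonneg (norm_nonneg a) (K.Psi_nonneg v)) fun S R hR => ?_
  simp only [smul_apply, map_smul]
  rw [avg_smul, norm_mul, mul_assoc]
  exact mul_le_mul_of_nonneg_left (K.le_Psi v S R hR) (norm_nonneg _)

lemma Psi_smul (a : 𝕂) (v : U →L[𝕂] Z) : K.Psi (a • v) = ‖a‖ * K.Psi v := by
  apply le_antisymm (K.Psi_smul_le a v)
  by_cases ha : a = 0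
  · subst ha
    rw [norm_zero, zero_mul]
    exact K.Psi_nonneg _
  · have h := K.Psi_smul_le a⁻¹ (a • v)
    rw [smul_smul, inv_mul_cancel₀ ha, one_smul, norm_inv] at h
    have h2 : 0 < ‖a‖ := norm_pos_iff.mpr ha
    calc ‖a‖ * K.Psi v ≤ ‖a‖ * (‖a‖⁻¹ * K.Psi (a • v)) := mul_le_mul_of_nonneg_left h h2.le
      _ = K.Psi (a • v) := by field_simp

end

lemma Psi_comp_le {U' Z' U Z : Type} [NormedAddCommGroup U] [NormedSpace 𝕂 U]
    [NormedAddCommGroup Z] [NormedSpace 𝕂 Z] [NormedAddCommGroup U'] [NormedSpace 𝕂 U']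
    [NormedAddCommGroup Z'] [NormedSpace 𝕂 Z'] (B : Z →L[𝕂] Z') (v : U →L[𝕂] Z)
    (A : U' →L[𝕂] U) : K.Psi (B.comp (v.comp A)) ≤ ‖B‖ * K.Psi v * ‖A‖ := by
  refine K.Psi_le _ (mul_nonneg (mul_nonneg (norm_nonneg _) (K.Psi_nonneg v)) (norm_nonneg _))
    fun S R hR => ?_
  have h := K.le_Psi v (A.comp S) (R.comp B) (hR.comp_right B)
  have h2 : ‖R.comp B‖ * ‖A.comp S‖ ≤ (‖R‖ * ‖B‖) * (‖A‖ * ‖S‖) :=
    mul_le_mul (R.opNorm_comp_le B) (A.opNorm_comp_le S) (norm_nonneg _) (by positivity)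
  refine h.trans ((mul_le_mul_of_nonneg_left h2 (K.Psi_nonneg v)).trans (le_of_eq ?_))
  ring

lemma key_scaled (R : X₀ →L[𝕂] X₀) (S : K.M →L[𝕂] K.M) (hR : FinRank R) :
    K.c * ‖avg K.al (fun j => R (S (K.em j)))‖ ≤ ‖R‖ * ‖S‖ := by
  have hc0 : 0 < K.c := zero_lt_one.trans K.hc
  rcases (mul_nonneg (norm_nonneg R) (norm_nonneg S)).eq_or_lt with h0 | h0
  · have h : ‖avg K.al (fun j => R (S (K.em j)))‖ ≤ ‖K.M.subtypeL‖ * (‖R‖ * ‖S‖) :=
      K.basic K.M.subtypeL S R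
    rw [← h0, mul_zero] at h
    rw [← h0]
    nlinarith [norm_nonneg (avg K.al (fun j => R (S (K.em j))))]
  · have hR0 : 0 < ‖R‖ := by
      by_contra hcon
      have : ‖R‖ = 0 := le_antisymm (not_lt.mp hcon) (norm_nonneg _)
      rw [this, zero_mul] at h0
      exact lt_irrefl _ h0
    have hS0 : 0 < ‖S‖ := by
      by_contra hcon
      have : ‖S‖ = 0 := le_antisymm (not_lt.mp hcon) (norm_nonneg _)
      rw [this, mul_zero] at h0
      exact lt_irrefl _ h0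
    have hn : ∀ r : ℝ, 0 < r → ‖((r⁻¹ : ℝ) : 𝕂)‖ = r⁻¹ := by
      intro r hr
      rw [RCLike.norm_ofReal, abs_of_pos (inv_pos.mpr hr)]
    have h := K.key (((‖R‖⁻¹ : ℝ) : 𝕂) • R) (((‖S‖⁻¹ : ℝ) : 𝕂) • S) (hR.smul _)
      (by rw [norm_smul, hn _ hR0, inv_mul_cancel₀ hR0.ne'])
      (by rw [norm_smul, hn _ hS0, inv_mul_cancel₀ hS0.ne'])
    simp only [smul_apply, Submodule.coe_smul, map_smul, smul_smul] at h
    rw [avg_smul, norm_mul, norm_mul, hn _ hR0, hn _ hS0] at h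
    have h3 : K.c * (‖S‖⁻¹ * ‖R‖⁻¹ * ‖avg K.al (fun j => R (S (K.em j)))‖) =
      (K.c * ‖avg K.al (fun j => R (S (K.em j)))‖) / (‖R‖ * ‖S‖) := by
      field_simp
    rw [h3, div_le_one h0] at h
    exact h

/-- The ideal norm. -/
noncomputable def nrm {U Z : Type} [NormedAddCommGroup U] [NormedSpace 𝕂 U]
    [NormedAddCommGroup Z] [NormedSpace 𝕂 Z] (v : U →L[𝕂] Z) : ℝ := max ‖v‖ (K.c * K.Psi v)

lemma nrm_le_c_mul {U Z : Type} [NormedAddCommGroup U] [NormedSpace 𝕂 U]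
    [NormedAddCommGroup Z] [NormedSpace 𝕂 Z] (v : U →L[𝕂] Z) : K.nrm v ≤ K.c * ‖v‖ := by
  have hc0 : 0 < K.c := zero_lt_one.trans K.hc
  refine max_le ?_ (mul_le_mul_of_nonneg_left (K.Psi_le_norm v) hc0.le)
  exact le_mul_of_one_le_left (norm_nonneg _) K.hc.le

lemma norm_le_nrm {U Z : Type} [NormedAddCommGroup U] [NormedSpace 𝕂 U]
    [NormedAddCommGroup Z] [NormedSpace 𝕂 Z] (v : U →L[𝕂] Z) : ‖v‖ ≤ K.nrm v := le_max_left _ _

lemma nrm_nonneg {U Z : Type} [NormedAddCommGroup U] [NormedSpace 𝕂 U]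
    [NormedAddCommGroup Z] [NormedSpace 𝕂 Z] (v : U →L[𝕂] Z) : 0 ≤ K.nrm v :=
  (norm_nonneg v).trans (K.norm_le_nrm v)

lemma nrm_id : K.nrm (ContinuousLinearMap.id 𝕂 𝕂) = 1 := by
  have hc0 : 0 < K.c := zero_lt_one.trans K.hc
  unfold nrm
  rw [ContinuousLinearMap.norm_id]
  refine max_eq_left ?_
  obtain ⟨j⟩ := K.ne
  -- a norm-one vector of `M` and its norming functional
  set y₀ : K.M := ((‖K.em j‖⁻¹ : ℝ) : 𝕂) • K.em j with hy₀
  have hy1 : ‖y₀‖ = 1 := by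
    rw [hy₀, norm_smul, RCLike.norm_ofReal, abs_of_pos (inv_pos.mpr (K.norm_em_pos j)),
      inv_mul_cancel₀ (K.norm_em_pos j).ne']
  obtain ⟨φ, hφ, hφy⟩ := exists_dual_vector'' 𝕂 (y₀ : X₀)
  have hy1' : ‖(y₀ : X₀)‖ = 1 := hy1
  rw [hy1'] at hφy
  have hPsi : K.Psi (ContinuousLinearMap.id 𝕂 𝕂) ≤ K.c⁻¹ := by
    refine K.Psi_le _ (inv_nonneg.mpr hc0.le) fun S R hR => ?_
    set R' : X₀ →L[𝕂] X₀ := R.comp φ with hR'
    set S' : K.M →L[𝕂] K.M := (ContinuousLinearMap.toSpanSingleton 𝕂 y₀).comp S with hS'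
    have h := K.key_scaled R' S' (hR.comp_right φ)
    have h2 : ∀ j, R' (S' (K.em j)) = R (S (K.em j)) := by
      intro j
      rw [hR', hS']
      simp only [ContinuousLinearMap.comp_apply, ContinuousLinearMap.toSpanSingleton_apply,
        Submodule.coe_smul, map_smul]
      rw [hφy, RCLike.ofReal_one, ← map_smul, smul_eq_mul, mul_one]
    simp only [h2] at h
    have h3 : ‖R'‖ ≤ ‖R‖ := (R.opNorm_comp_le φ).trans (mul_le_of_le_one_right (norm_nonneg _) hφ)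
    have h4 : ‖S'‖ ≤ ‖S‖ := by
      refine ((ContinuousLinearMap.toSpanSingleton 𝕂 y₀).opNorm_comp_le S).trans ?_
      rw [ContinuousLinearMap.norm_toSpanSingleton, hy1, one_mul]
    have h5 := h.trans (mul_le_mul h3 h4 (norm_nonneg _) (norm_nonneg _))
    rw [inv_mul_eq_div, le_div_iff₀ hc0, mul_comm]
    exact h5
  calc K.c * K.Psi (ContinuousLinearMap.id 𝕂 𝕂) ≤ K.c * K.c⁻¹ :=
        mul_le_mul_of_nonneg_left hPsi hc0.le
    _ = 1 := mul_inv_cancel₀ hc0.ne'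

lemma nrm_comp_le {U' Z' U Z : Type} [NormedAddCommGroup U] [NormedSpace 𝕂 U]
    [NormedAddCommGroup Z] [NormedSpace 𝕂 Z] [NormedAddCommGroup U'] [NormedSpace 𝕂 U']
    [NormedAddCommGroup Z'] [NormedSpace 𝕂 Z'] (B : Z →L[𝕂] Z') (v : U →L[𝕂] Z)
    (A : U' →L[𝕂] U) : K.nrm (B.comp (v.comp A)) ≤ ‖B‖ * K.nrm v * ‖A‖ := by
  have hc0 : 0 < K.c := zero_lt_one.trans K.hc
  refine max_le ?_ ?_
  · refine (B.opNorm_comp_le _).trans ?_
    rw [mul_assoc]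
    refine mul_le_mul_of_nonneg_left ?_ (norm_nonneg _)
    refine (v.opNorm_comp_le _).trans ?_
    exact mul_le_mul_of_nonneg_right (K.norm_le_nrm v) (norm_nonneg _)
  · calc K.c * K.Psi (B.comp (v.comp A)) ≤ K.c * (‖B‖ * K.Psi v * ‖A‖) :=
          mul_le_mul_of_nonneg_left (K.Psi_comp_le B v A) hc0.le
      _ = ‖B‖ * (K.c * K.Psi v) * ‖A‖ := by ring
      _ ≤ ‖B‖ * K.nrm v * ‖A‖ := by
          refine mul_le_mul_of_nonneg_right ?_ (norm_nonneg _)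
          exact mul_le_mul_of_nonneg_left (le_max_right _ _) (norm_nonneg _)

/-- The ideal `𝔏`, with the norm `nrm`. -/
noncomputable def ideal : PreIdeal 𝕂 where
  component := fun _ _ => ⊤
  nrm := fun {X Y} T => K.nrm (U := X.pts) (Z := Y.pts) T

lemma ideal_nrm {X Y : Ban 𝕂} (T : Op X Y) :
    K.ideal.nrm T = K.nrm (U := X.pts) (Z := Y.pts) T := rfl

lemma ideal_mem {X Y : Ban 𝕂} (T : Op X Y) : K.ideal.Mem T := Submodule.mem_top

lemma nrm_add_le {U Z : Type} [NormedAddCommGroup U] [NormedSpace 𝕂 U]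
    [NormedAddCommGroup Z] [NormedSpace 𝕂 Z] (S T : U →L[𝕂] Z) :
    K.nrm (S + T) ≤ K.nrm S + K.nrm T := by
  have hc0 : 0 < K.c := zero_lt_one.trans K.hc
  refine max_le ((norm_add_le _ _).trans (add_le_add (le_max_left _ _) (le_max_left _ _))) ?_
  refine (mul_le_mul_of_nonneg_left (K.Psi_add_le S T) hc0.le).trans ?_
  rw [mul_add]
  exact add_le_add (le_max_right _ _) (le_max_right _ _)

lemma nrm_smul {U Z : Type} [NormedAddCommGroup U] [NormedSpace 𝕂 U]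
    [NormedAddCommGroup Z] [NormedSpace 𝕂 Z] (a : 𝕂) (T : U →L[𝕂] Z) :
    K.nrm (a • T) = ‖a‖ * K.nrm T := by
  unfold KeyData.nrm
  rw [norm_smul, K.Psi_smul, mul_max_of_nonneg _ _ (norm_nonneg a)]
  congr 1
  ring

lemma nrm_complete {X Y : Type} [NormedAddCommGroup X] [NormedSpace 𝕂 X]
    [NormedAddCommGroup Y] [NormedSpace 𝕂 Y] [CompleteSpace Y] (T : ℕ → (X →L[𝕂] Y))
    (hT : ∀ ε > 0, ∃ N, ∀ i ≥ N, ∀ j ≥ N, K.nrm (T i - T j) < ε) :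
    ∃ S : X →L[𝕂] Y, Tendsto (fun k => K.nrm (T k - S)) atTop (𝓝 0) := by
  have hcau : CauchySeq T := by
    rw [Metric.cauchySeq_iff]
    intro ε hε
    obtain ⟨N, hN⟩ := hT ε hε
    refine ⟨N, fun i hi j hj => ?_⟩
    rw [dist_eq_norm]
    exact (K.norm_le_nrm _).trans_lt (hN i hi j hj)
  obtain ⟨S, hS⟩ := cauchySeq_tendsto_of_complete hcau
  refine ⟨S, ?_⟩
  have h1 : Tendsto (fun k => K.c * ‖T k - S‖) atTop (𝓝 0) := by
    have h2 : Tendsto (fun k => T k - S) atTop (𝓝 0) := by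
      have := hS.sub (tendsto_const_nhds (x := S))
      rwa [sub_self] at this
    have h3 := (tendsto_zero_iff_norm_tendsto_zero.mp h2).const_mul K.c
    rwa [mul_zero] at h3
  exact squeeze_zero (fun k => K.nrm_nonneg _) (fun k => K.nrm_le_c_mul _) h1

theorem ideal_isBanachIdeal : K.ideal.IsBanachIdeal where
  finRank := fun _ _ T _ => K.ideal_mem T
  isNorm :=
    { add_le := fun _ _ S T _ _ => K.nrm_add_le S T
      smul_eq := fun _ _ a T _ => K.nrm_smul a T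
      le_nrm := fun _ _ T _ => K.norm_le_nrm T }
  isComplete := by
    intro X Y T _ hT
    obtain ⟨S, hS⟩ := K.nrm_complete (X := X.pts) (Y := Y.pts) T hT
    exact ⟨S, K.ideal_mem _, hS⟩
  nrm_id := K.nrm_id
  isIdeal := fun _ _ _ _ R T S _ => ⟨K.ideal_mem _, K.nrm_comp_le R T S⟩

end KeyData

end Pool.Agent.Lib.MP_ffba67_an_b
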