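import Pool.Agent.Lib.MP_ffba67_an_b.Ideal

/-!
# The ideal is maximal
-/

set_option autoImplicit false

open Finset Filter
open scoped Topology

namespace Pool.Agent.Lib.MP_ffba67_an_b

variable {𝕂 : Type} [RCLike 𝕂] {X₀ : Type} [NormedAddCommGroup X₀] [NormedSpace 𝕂 X₀]

lemma norm_mkQL_le {Y : Type} [NormedAddCommGroup Y] [NormedSpace 𝕂 Y] (L : Submodule 𝕂 Y)
    [IsClosed (L : Set Y)] : ‖(L.mkQL : Y →L[𝕂] Y ⧸ L)‖ ≤ 1 := by
  refine ContinuousLinearMap.opNorm_le_bound _ zero_le_one fun y => ?_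
  rw [one_mul]
  exact Submodule.Quotient.norm_mk_le L y

lemma norm_liftQL_le {Y Z : Type} [NormedAddCommGroup Y] [NormedSpace 𝕂 Y]
    [NormedAddCommGroup Z] [NormedSpace 𝕂 Z] (L : Submodule 𝕂 Y)
    [IsClosed (L : Set Y)] (f : Y →L[𝕂] Z) (h : L ≤ LinearMap.ker (f : Y →ₗ[𝕂] Z)) :
    ‖(L.liftQL f h : Y ⧸ L →L[𝕂] Z)‖ ≤ ‖f‖ := by
  refine ContinuousLinearMap.opNorm_le_bound _ (norm_nonneg _) fun y => ?_
  have hkey : ∀ ε : ℝ, 0 < ε → ‖L.liftQL f h y‖ ≤ ‖f‖ * (‖y‖ + ε) := by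
    intro ε hε
    obtain ⟨m, hm, hm2⟩ := Submodule.Quotient.norm_mk_lt y hε
    rw [← hm]
    have h2 : L.liftQL f h (Submodule.Quotient.mk m) = f m := rfl
    rw [h2]
    refine (f.le_opNorm m).trans (mul_le_mul_of_nonneg_left ?_ (norm_nonneg _))
    rw [← hm] at hm2
    exact hm2.le
  have hlim : Tendsto (fun ε : ℝ => ‖f‖ * (‖y‖ + ε)) (𝓝[>] 0) (𝓝 (‖f‖ * (‖y‖ + 0))) := by
    refine Tendsto.mono_left ?_ nhdsWithin_le_nhds
    exact Tendsto.const_mul _ (Tendsto.const_add _ tendsto_id)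
  rw [add_zero] at hlim
  exact ge_of_tendsto hlim (eventually_mem_nhdsWithin.mono fun ε hε => hkey ε hε)

lemma finiteDimensional_quot_ker {Y Z : Type} [NormedAddCommGroup Y] [NormedSpace 𝕂 Y]
    [NormedAddCommGroup Z] [NormedSpace 𝕂 Z] (f : Y →L[𝕂] Z) (hf : FinRank f) :
    FiniteDimensional 𝕂 (Y ⧸ LinearMap.ker (f : Y →ₗ[𝕂] Z)) := by
  unfold FinRank at hf
  exact LinearEquiv.finiteDimensional (LinearMap.quotKerEquivRange (f : Y →ₗ[𝕂] Z)).symm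

namespace KeyData

variable (K : KeyData 𝕂 X₀)

lemma local_le {X Y : Type} [NormedAddCommGroup X] [NormedSpace 𝕂 X]
    [NormedAddCommGroup Y] [NormedSpace 𝕂 Y] (T : X →L[𝕂] Y) (M : Submodule 𝕂 X)
    (L : Submodule 𝕂 Y) (hL : IsClosed (L : Set Y)) :
    K.nrm (L.mkQL.comp (T.comp M.subtypeL)) ≤ K.nrm T := by
  have h := K.nrm_comp_le L.mkQL T M.subtypeL
  refine h.trans ?_
  have h1 : ‖(L.mkQL : Y →L[𝕂] Y ⧸ L)‖ ≤ 1 := norm_mkQL_le L
  have h2 : ‖M.subtypeL‖ ≤ 1 := Submodule.norm_subtypeL_le M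
  calc ‖(L.mkQL : Y →L[𝕂] Y ⧸ L)‖ * K.nrm T * ‖M.subtypeL‖ ≤ 1 * K.nrm T * 1 := by
        refine mul_le_mul ?_ h2 (norm_nonneg _) ?_
        · exact mul_le_mul_of_nonneg_right h1 (K.nrm_nonneg T)
        · rw [one_mul]; exact K.nrm_nonneg T
    _ = K.nrm T := by ring

lemma nrm_le_of_local {X Y : Type} [NormedAddCommGroup X] [NormedSpace 𝕂 X] [CompleteSpace X]
    [NormedAddCommGroup Y] [NormedSpace 𝕂 Y] [CompleteSpace Y] (T : X →L[𝕂] Y) (B : ℝ)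
    (hB : ∀ (M : Submodule 𝕂 X) (L : Submodule 𝕂 Y) (_ : FiniteDimensional 𝕂 M)
      (_ : IsClosed (L : Set Y)) (_ : FiniteDimensional 𝕂 (Y ⧸ L)),
      K.nrm (L.mkQL.comp (T.comp M.subtypeL)) ≤ B) : K.nrm T ≤ B := by
  have hc0 : 0 < K.c := zero_lt_one.trans K.hc
  -- the part about the operator norm
  have hmain1 : ∀ x : X, ‖T x‖ ≤ B * ‖x‖ := by
    intro x
    obtain ⟨φ, hφ, hφx⟩ := exists_dual_vector'' 𝕂 (T x)
    have hclosed : IsClosed ((LinearMap.ker (φ : Y →ₗ[𝕂] 𝕂) : Submodule 𝕂 Y) : Set Y) :=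
      ContinuousLinearMap.isClosed_ker φ
    have hfin : FiniteDimensional 𝕂 (Y ⧸ LinearMap.ker (φ : Y →ₗ[𝕂] 𝕂)) := by
      refine finiteDimensional_quot_ker φ ?_
      unfold FinRank
      infer_instance
    set L := LinearMap.ker (φ : Y →ₗ[𝕂] 𝕂) with hL
    set M := Submodule.span 𝕂 {x} with hM
    have h1 := hB M L inferInstance hclosed hfin
    have hx : x ∈ M := Submodule.mem_span_singleton_self x
    have h2 : ‖(L.mkQL.comp (T.comp M.subtypeL)) ⟨x, hx⟩‖ ≤ B * ‖x‖ := by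
      refine (ContinuousLinearMap.le_opNorm _ _).trans ?_
      refine mul_le_mul_of_nonneg_right ((K.norm_le_nrm _).trans h1) (norm_nonneg _)
    have h3 : φ (T x) = (L.liftQL φ le_rfl) ((L.mkQL.comp (T.comp M.subtypeL)) ⟨x, hx⟩) := rfl
    have h4 : ‖T x‖ = ‖φ (T x)‖ := by
      rw [hφx, RCLike.norm_ofReal, abs_of_nonneg (norm_nonneg _)]
    rw [h4, h3]
    refine ((L.liftQL φ le_rfl).le_opNorm _).trans ?_
    refine (mul_le_of_le_one_left (norm_nonneg _) ?_).trans h2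
    exact (norm_liftQL_le L φ le_rfl).trans hφ
  have hB0 : 0 ≤ B := by
    have hclosed : IsClosed (((⊤ : Submodule 𝕂 Y)) : Set Y) := isClosed_univ
    have hfin : FiniteDimensional 𝕂 (Y ⧸ (⊤ : Submodule 𝕂 Y)) := inferInstance
    exact (K.nrm_nonneg _).trans (hB ⊥ ⊤ inferInstance hclosed hfin)
  refine max_le (ContinuousLinearMap.opNorm_le_bound _ hB0 hmain1) ?_
  have hPsi : K.Psi T ≤ K.c⁻¹ * B := by
    refine K.Psi_le T (mul_nonneg (inv_nonneg.mpr hc0.le) hB0) fun S R hR => ?_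
    have hclosed : IsClosed ((LinearMap.ker (R : Y →ₗ[𝕂] X₀) : Submodule 𝕂 Y) : Set Y) :=
      ContinuousLinearMap.isClosed_ker R
    have hfin := finiteDimensional_quot_ker R hR
    set L := LinearMap.ker (R : Y →ₗ[𝕂] X₀) with hL
    set M := LinearMap.range (S : K.M →ₗ[𝕂] X) with hM
    have hMfin : FiniteDimensional 𝕂 M := by
      rw [hM]; infer_instance
    have h1 := hB M L hMfin hclosed hfin
    set S' : K.M →L[𝕂] M := S.codRestrict M (fun y => ⟨y, rfl⟩) with hS'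
    have hS'n : ‖S'‖ ≤ ‖S‖ :=
      ContinuousLinearMap.opNorm_le_bound _ (norm_nonneg _) fun y => S.le_opNorm y
    set R' : Y ⧸ L →L[𝕂] X₀ := L.liftQL R le_rfl with hR'
    have hR'n : ‖R'‖ ≤ ‖R‖ := norm_liftQL_le L R le_rfl
    have hR'f : FinRank R' := by
      unfold FinRank
      infer_instance
    have h2 := K.le_Psi (L.mkQL.comp (T.comp M.subtypeL)) S' R' hR'f
    have h3 : ∀ j, R' ((L.mkQL.comp (T.comp M.subtypeL)) (S' (K.em j))) = R (T (S (K.em j))) :=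
      fun j => rfl
    simp only [h3] at h2
    refine h2.trans ?_
    have h4 : K.Psi (L.mkQL.comp (T.comp M.subtypeL)) ≤ K.c⁻¹ * B := by
      rw [inv_mul_eq_div, le_div_iff₀ hc0, mul_comm]
      exact (le_max_right _ _).trans h1
    exact mul_le_mul h4 (mul_le_mul hR'n hS'n (norm_nonneg _) (norm_nonneg _)) (by positivity)
      ((K.Psi_nonneg _).trans h4)
  calc K.c * K.Psi T ≤ K.c * (K.c⁻¹ * B) := mul_le_mul_of_nonneg_left hPsi hc0.le
    _ = B := by rw [← mul_assoc, mul_inv_cancel₀ hc0.ne', one_mul]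

/-- The ideal is maximal. -/
theorem ideal_isMaximal : K.ideal.IsMaximal := by
  intro X Y T
  have hle : ∀ a ∈ K.ideal.localNorms T, a ≤ K.ideal.nrm T := by
    rintro a ⟨M, L, rfl⟩
    exact K.local_le (X := X.pts) (Y := Y.pts) T M.sub L.sub L.closed
  refine ⟨⟨fun _ => ⟨K.ideal.nrm T, hle⟩, fun _ => K.ideal_mem T⟩, fun _ => ⟨hle, fun B hB => ?_⟩⟩
  refine K.nrm_le_of_local (X := X.pts) (Y := Y.pts) T B fun M L hM hL hYL => ?_
  exact hB ⟨⟨M, hM⟩, ⟨L, hL, hYL⟩, rfl⟩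

end KeyData

end Pool.Agent.Lib.MP_ffba67_an_b
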