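import Pool.Agent.Lib.MP_ffba67_an_b.Sums

/-!
# The space `X` (a closed subspace of `ℓ_8`) and its approximation functionals
-/

set_option autoImplicit false

open Finset
open scoped ENNReal

namespace Pool.Agent.Lib.MP_ffba67_an_b

/-- The index set. -/
abbrev Idx : Type := Σ n, G n

instance fact_one_le_eight : Fact ((1 : ℝ≥0∞) ≤ 8) := ⟨by norm_num⟩

/-- The ambient space `ℓ_8`. -/
abbrev ell (𝕂 : Type) [RCLike 𝕂] : Type := lp (fun _ : Idx => 𝕂) 8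

/-- The values of the vector `e_{n,j}`. -/
def ev (n : ℕ) (j : Fin (n + 1) → V) : Idx → ℤ
  | ⟨k, g⟩ => if h : k = n then L j (h ▸ g) else if h : k = n + 1 then U j (h ▸ g) else 0

lemma ev_lower (n : ℕ) (j : Fin (n + 1) → V) (g : G n) : ev n j ⟨n, g⟩ = L j g := by
  simp [ev]

lemma ev_upper (n : ℕ) (j : Fin (n + 1) → V) (g : G (n + 1)) : ev n j ⟨n + 1, g⟩ = U j g := by
  simp [ev]

lemma ev_other (n : ℕ) (j : Fin (n + 1) → V) (k : ℕ) (g : G k) (h1 : k ≠ n) (h2 : k ≠ n + 1) :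
    ev n j ⟨k, g⟩ = 0 := by
  simp [ev, h1, h2]

/-- The indices of level `n`. -/
def lev (n : ℕ) : Finset Idx := (univ : Finset (G n)).map ⟨Sigma.mk n, sigma_mk_injective⟩

lemma mem_lev (n k : ℕ) (g : G k) : (⟨k, g⟩ : Idx) ∈ lev n ↔ k = n := by
  unfold lev
  simp only [mem_map, mem_univ, Function.Embedding.coeFn_mk, true_and]
  constructor
  · rintro ⟨g', h⟩
    exact (congrArg Sigma.fst h).symm
  · rintro rfl
    exact ⟨g, rfl⟩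

lemma sum_lev {M : Type} [AddCommMonoid M] (n : ℕ) (f : Idx → M) :
    ∑ i ∈ lev n, f i = ∑ g : G n, f ⟨n, g⟩ := by
  unfold lev
  rw [sum_map]
  rfl

lemma card_lev (n : ℕ) : (lev n).card = 32 * 16 ^ n := by
  unfold lev
  rw [card_map, card_univ, card_G]

lemma disjoint_lev {n m : ℕ} (h : n ≠ m) : Disjoint (lev n) (lev m) := by
  rw [Finset.disjoint_left]
  rintro ⟨k, g⟩ h1 h2
  rw [mem_lev] at h1 h2
  exact h (h1.symm.trans h2)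

/-- The support of the vectors of index `n`. -/
def supp (n : ℕ) : Finset Idx := lev n ∪ lev (n + 1)

lemma ev_eq_zero (n : ℕ) (j : Fin (n + 1) → V) (i : Idx) (hi : i ∉ supp n) : ev n j i = 0 := by
  obtain ⟨k, g⟩ := i
  simp only [supp, mem_union, mem_lev, not_or] at hi
  exact ev_other n j k g hi.1 hi.2

lemma abs_ev (n : ℕ) (j : Fin (n + 1) → V) (i : Idx) (hi : i ∈ supp n) : |ev n j i| = 1 := by
  obtain ⟨k, g⟩ := i
  simp only [supp, mem_union, mem_lev] at hi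
  rcases hi with rfl | rfl
  · rw [ev_lower, abs_L]
  · rw [ev_upper, abs_U]

variable (𝕂 : Type) [RCLike 𝕂]

lemma eight_toReal : (8 : ℝ≥0∞).toReal = 8 := by norm_num

variable {𝕂}

lemma norm_pow_eq (f : ell 𝕂) : ‖f‖ ^ 8 = ∑' i, ‖f i‖ ^ 8 := by
  have h := lp.norm_rpow_eq_tsum (p := 8) (by norm_num) f
  rw [eight_toReal] at h
  have h8 : (8 : ℝ) = ((8 : ℕ) : ℝ) := by norm_num
  rw [h8, Real.rpow_natCast] at h
  simpa only [Real.rpow_natCast] using h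

lemma norm_pow_eq_sum (f : ell 𝕂) (s : Finset Idx) (hs : ∀ i ∉ s, f i = 0) :
    ‖f‖ ^ 8 = ∑ i ∈ s, ‖f i‖ ^ 8 := by
  rw [norm_pow_eq, tsum_eq_sum]
  intro i hi
  rw [hs i hi]; simp

lemma sum_pow_le (f : ell 𝕂) (s : Finset Idx) : ∑ i ∈ s, ‖f i‖ ^ 8 ≤ ‖f‖ ^ 8 := by
  have h := lp.sum_rpow_le_norm_rpow (p := 8) (by norm_num) f s
  rw [eight_toReal] at h
  have h8 : (8 : ℝ) = ((8 : ℕ) : ℝ) := by norm_num
  rw [h8, Real.rpow_natCast] at h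
  simpa only [Real.rpow_natCast] using h

variable (𝕂)

/-- The vectors `e_{n,j}`. -/
def vec (n : ℕ) (j : Fin (n + 1) → V) : ell 𝕂 :=
  ⟨fun i => ((ev n j i : ℤ) : 𝕂), by
    refine (memℓp_zero ?_).of_exponent_ge zero_le
    refine (supp n).finite_toSet.subset ?_
    intro i hi
    by_contra h
    exact hi (by
      have := ev_eq_zero n j i h
      simp [this])⟩

lemma vec_apply (n : ℕ) (j : Fin (n + 1) → V) (i : Idx) :
    vec 𝕂 n j i = ((ev n j i : ℤ) : 𝕂) := rfl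

lemma norm_int_cast (z : ℤ) : ‖(z : 𝕂)‖ = |z| := by
  rw [← RCLike.ofReal_intCast, RCLike.norm_ofReal]
  simp

/-- `N n` is the number of points in the support of `e_{n,j}`. -/
def Nn (n : ℕ) : ℕ := 32 * 16 ^ n + 32 * 16 ^ (n + 1)

lemma card_supp (n : ℕ) : (supp n).card = Nn n := by
  unfold supp Nn
  rw [card_union_of_disjoint (disjoint_lev (by omega)), card_lev, card_lev]

lemma norm_vec_pow (n : ℕ) (j : Fin (n + 1) → V) : ‖vec 𝕂 n j‖ ^ 8 = Nn n := by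
  rw [norm_pow_eq_sum _ (supp n)]
  · rw [← card_supp, card_eq_sum_ones, Nat.cast_sum]
    refine sum_congr rfl fun i hi => ?_
    rw [vec_apply, norm_int_cast, abs_ev n j i hi]
    simp
  · intro i hi
    rw [vec_apply, ev_eq_zero n j i hi]
    simp

/-- The evaluation functionals. -/
noncomputable def evl (i : Idx) : ell 𝕂 →L[𝕂] 𝕂 := lp.evalCLM 𝕂 (fun _ : Idx => 𝕂) 8 i

lemma evl_apply (i : Idx) (f : ell 𝕂) : evl 𝕂 i f = f i := rfl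

/-- The lower averages. -/
noncomputable def fA (n : ℕ) (j : Fin (n + 1) → V) : ell 𝕂 →L[𝕂] 𝕂 :=
  ((32 * 16 ^ n : ℕ) : 𝕂)⁻¹ • ∑ g : G n, ((L j g : ℤ) : 𝕂) • evl 𝕂 ⟨n, g⟩

/-- The upper averages. -/
noncomputable def fB (n : ℕ) (j : Fin (n + 1) → V) : ell 𝕂 →L[𝕂] 𝕂 :=
  ((32 * 16 ^ (n + 1) : ℕ) : 𝕂)⁻¹ • ∑ g : G (n + 1), ((U j g : ℤ) : 𝕂) • evl 𝕂 ⟨n + 1, g⟩

lemma fA_apply (n : ℕ) (j : Fin (n + 1) → V) (f : ell 𝕂) :
    fA 𝕂 n j f = ((32 * 16 ^ n : ℕ) : 𝕂)⁻¹ * ∑ g : G n, ((L j g : ℤ) : 𝕂) * f ⟨n, g⟩ := by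
  simp [fA, evl_apply]

lemma fB_apply (n : ℕ) (j : Fin (n + 1) → V) (f : ell 𝕂) :
    fB 𝕂 n j f = ((32 * 16 ^ (n + 1) : ℕ) : 𝕂)⁻¹ *
      ∑ g : G (n + 1), ((U j g : ℤ) : 𝕂) * f ⟨n + 1, g⟩ := by
  simp [fB, evl_apply]

lemma cast_ne_zero (n : ℕ) : ((32 * 16 ^ n : ℕ) : 𝕂) ≠ 0 := by
  rw [Nat.cast_ne_zero]
  positivity

lemma fA_vec_self (n : ℕ) (j i : Fin (n + 1) → V) :
    fA 𝕂 n j (vec 𝕂 n i) = if j = i then 1 else 0 := by
  rw [fA_apply]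
  have h : ∑ g : G n, ((L j g : ℤ) : 𝕂) * vec 𝕂 n i ⟨n, g⟩ =
      ((∑ g : G n, L j g * L i g : ℤ) : 𝕂) := by
    push_cast
    refine sum_congr rfl fun g _ => ?_
    rw [vec_apply, ev_lower]
  rw [h, orth_LL]
  split_ifs
  · have := cast_ne_zero 𝕂 n
    push_cast at this ⊢
    rw [inv_mul_cancel₀ this]
  · simp

lemma fB_vec_self (n : ℕ) (j i : Fin (n + 1) → V) :
    fB 𝕂 n j (vec 𝕂 n i) = if j = i then 1 else 0 := by
  rw [fB_apply]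
  have h : ∑ g : G (n + 1), ((U j g : ℤ) : 𝕂) * vec 𝕂 n i ⟨n + 1, g⟩ =
      ((∑ g : G (n + 1), U j g * U i g : ℤ) : 𝕂) := by
    push_cast
    refine sum_congr rfl fun g _ => ?_
    rw [vec_apply, ev_upper]
  rw [h, orth_UU]
  split_ifs
  · have := cast_ne_zero 𝕂 (n + 1)
    push_cast at this ⊢
    rw [inv_mul_cancel₀ this]
  · simp

lemma fA_vec_ne (n k : ℕ) (hk : k ≠ n) (j : Fin (n + 1) → V) (i : Fin (k + 1) → V) :
    fA 𝕂 n j (vec 𝕂 k i) = 0 := by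
  rw [fA_apply]
  by_cases h : n = k + 1
  · subst h
    have h : ∑ g : G (k + 1), ((L j g : ℤ) : 𝕂) * vec 𝕂 k i ⟨k + 1, g⟩ =
        ((∑ g : G (k + 1), L j g * U i g : ℤ) : 𝕂) := by
      push_cast
      refine sum_congr rfl fun g _ => ?_
      rw [vec_apply, ev_upper]
    rw [h, orth_LU]
    simp
  · have h : ∑ g : G n, ((L j g : ℤ) : 𝕂) * vec 𝕂 k i ⟨n, g⟩ = 0 := by
      refine sum_eq_zero fun g _ => ?_
      rw [vec_apply, ev_other k i n g (Ne.symm hk) h]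
      simp
    rw [h, mul_zero]

lemma fB_vec_ne (n k : ℕ) (hk : k ≠ n) (j : Fin (n + 1) → V) (i : Fin (k + 1) → V) :
    fB 𝕂 n j (vec 𝕂 k i) = 0 := by
  rw [fB_apply]
  by_cases h : k = n + 1
  · subst h
    have h : ∑ g : G (n + 1), ((U j g : ℤ) : 𝕂) * vec 𝕂 (n + 1) i ⟨n + 1, g⟩ =
        ((∑ g : G (n + 1), L i g * U j g : ℤ) : 𝕂) := by
      push_cast
      refine sum_congr rfl fun g _ => ?_
      rw [vec_apply, ev_lower, mul_comm]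
    rw [h, orth_LU]
    simp
  · have h : ∑ g : G (n + 1), ((U j g : ℤ) : 𝕂) * vec 𝕂 k i ⟨n + 1, g⟩ = 0 := by
      refine sum_eq_zero fun g _ => ?_
      rw [vec_apply, ev_other k i (n + 1) g (Ne.symm h) (by omega)]
      simp
    rw [h, mul_zero]

/-- The space `X`. -/
noncomputable def XX : Submodule 𝕂 (ell 𝕂) :=
  (Submodule.span 𝕂 (Set.range fun p : (Σ n : ℕ, Fin (n + 1) → V) => vec 𝕂 p.1 p.2)).topologicalClosure

noncomputable instance : CompleteSpace (XX 𝕂) := by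
  unfold XX; infer_instance

lemma vec_mem (n : ℕ) (j : Fin (n + 1) → V) : vec 𝕂 n j ∈ XX 𝕂 :=
  Submodule.le_topologicalClosure _ (Submodule.subset_span ⟨⟨n, j⟩, rfl⟩)

/-- Induction principle: a closed subspace containing all the `vec` contains `X`. -/
lemma XX_le (S : Submodule 𝕂 (ell 𝕂)) (hS : IsClosed (S : Set (ell 𝕂)))
    (h : ∀ n j, vec 𝕂 n j ∈ S) : XX 𝕂 ≤ S := by
  refine Submodule.topologicalClosure_minimal _ ?_ hS
  rw [Submodule.span_le]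
  rintro _ ⟨⟨n, j⟩, rfl⟩
  exact h n j

lemma fA_eq_fB (n : ℕ) (j : Fin (n + 1) → V) (x : ell 𝕂) (hx : x ∈ XX 𝕂) :
    fA 𝕂 n j x = fB 𝕂 n j x := by
  have h : XX 𝕂 ≤ LinearMap.ker ((fA 𝕂 n j - fB 𝕂 n j : ell 𝕂 →L[𝕂] 𝕂) : ell 𝕂 →ₗ[𝕂] 𝕂) := by
    refine XX_le 𝕂 _ (ContinuousLinearMap.isClosed_ker _) ?_
    intro k i
    rw [LinearMap.mem_ker]
    by_cases hk : k = n
    · subst hk
      simp [fA_vec_self, fB_vec_self]
    · simp [fA_vec_ne 𝕂 n k hk, fB_vec_ne 𝕂 n k hk]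
  have h2 := h hx
  rw [LinearMap.mem_ker] at h2
  simpa [sub_eq_zero] using h2

lemma N_mul_fA (n : ℕ) (j : Fin (n + 1) → V) (x : ell 𝕂) (hx : x ∈ XX 𝕂) :
    (Nn n : 𝕂) * fA 𝕂 n j x = ∑ i ∈ supp n, ((ev n j i : ℤ) : 𝕂) * x i := by
  have h1 : (Nn n : 𝕂) * fA 𝕂 n j x = ((32 * 16 ^ n : ℕ) : 𝕂) * fA 𝕂 n j x +
      ((32 * 16 ^ (n + 1) : ℕ) : 𝕂) * fB 𝕂 n j x := by
    rw [← fA_eq_fB 𝕂 n j x hx, ← add_mul]
    unfold Nn
    push_cast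
    ring
  rw [h1, fA_apply, fB_apply, mul_inv_cancel_left₀ (cast_ne_zero 𝕂 n),
    mul_inv_cancel_left₀ (cast_ne_zero 𝕂 (n + 1))]
  unfold supp
  rw [sum_union (disjoint_lev (by omega)), sum_lev, sum_lev]
  simp only [ev_lower, ev_upper]

lemma fA_norm (n : ℕ) (j i : Fin (n + 1) → V) (x : ell 𝕂) (hx : x ∈ XX 𝕂) :
    ‖fA 𝕂 n j x‖ * ‖vec 𝕂 n i‖ ≤ ‖x‖ := by
  have hN : (0 : ℝ) < Nn n := by unfold Nn; positivity
  have h1 : (Nn n : ℝ) * ‖fA 𝕂 n j x‖ ≤ ∑ i ∈ supp n, ‖x i‖ := by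
    have : (Nn n : ℝ) * ‖fA 𝕂 n j x‖ = ‖(Nn n : 𝕂) * fA 𝕂 n j x‖ := by
      rw [norm_mul, RCLike.norm_natCast]
    rw [this, N_mul_fA 𝕂 n j x hx]
    refine (norm_sum_le _ _).trans (sum_le_sum fun i hi => ?_)
    rw [norm_mul, norm_int_cast, abs_ev n j i hi]
    simp
  have h2 : (∑ i ∈ supp n, ‖x i‖) ^ 8 ≤ (Nn n : ℝ) ^ 7 * ‖x‖ ^ 8 := by
    have h3 := pow_sum_div_card_le_sum_pow (s := supp n) (f := fun i => ‖x i‖)
      (fun i _ => norm_nonneg _) 7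
    rw [card_supp, div_le_iff₀ (by positivity)] at h3
    refine h3.trans ?_
    rw [mul_comm]
    exact mul_le_mul_of_nonneg_left (sum_pow_le x _) (by positivity)
  have h4 : (‖fA 𝕂 n j x‖ * ‖vec 𝕂 n i‖) ^ 8 ≤ ‖x‖ ^ 8 := by
    rw [mul_pow, norm_vec_pow]
    have h5 : ((Nn n : ℝ) * ‖fA 𝕂 n j x‖) ^ 8 ≤ (Nn n : ℝ) ^ 7 * ‖x‖ ^ 8 :=
      (pow_le_pow_left₀ (by positivity) h1 8).trans h2
    have h6 : (Nn n : ℝ) ^ 7 * (‖fA 𝕂 n j x‖ ^ 8 * Nn n) ≤ (Nn n : ℝ) ^ 7 * ‖x‖ ^ 8 := by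
      calc (Nn n : ℝ) ^ 7 * (‖fA 𝕂 n j x‖ ^ 8 * Nn n) = ((Nn n : ℝ) * ‖fA 𝕂 n j x‖) ^ 8 := by ring
        _ ≤ _ := h5
    exact le_of_mul_le_mul_left h6 (by positivity)
  exact le_of_pow_le_pow_left₀ (by norm_num) (norm_nonneg _) h4

end Pool.Agent.Lib.MP_ffba67_an_b
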