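import Pool.Agent.Lib.MP_ffba67_an_b.Block

/-!
# The sign systems on the groups `G n = V^n × (ℤ/2 × V)`
-/

set_option autoImplicit false

open Finset

namespace Pool.Agent.Lib.MP_ffba67_an_b

/-- The `n`-th group. -/
abbrev G (n : ℕ) : Type := (Fin n → V) × (ZMod 2 × V)

/-- A general product of block signs. -/
def W {N : ℕ} (κ : Fin N → Kap) (x j : Fin N → V) : ℤ := ∏ i, ψ (κ i) (x i) (j i)

lemma sum_prod {N : ℕ} (f : Fin N → V → ℤ) :
    ∑ j : Fin N → V, ∏ i, f i (j i) = ∏ i, ∑ b, f i b := by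
  rw [Finset.prod_univ_sum]
  simp

lemma sum_W_mul_W {N : ℕ} (κ κ' : Fin N → Kap) (x x' : Fin N → V) :
    ∑ j : Fin N → V, W κ x j * W κ' x' j = ∏ i, ∑ b, ψ (κ i + κ' i) (x i + x' i) b := by
  rw [← sum_prod]
  refine sum_congr rfl fun j _ => ?_
  rw [W, W, ← prod_mul_distrib]
  exact prod_congr rfl fun i _ => ψ_mul _ _ _ _ _

lemma abs_W {N : ℕ} (κ : Fin N → Kap) (x j : Fin N → V) : |W κ x j| = 1 := by
  rw [W, abs_prod]
  exact prod_eq_one fun i _ => abs_ψ _ _ _

lemma W_mul_self {N : ℕ} (κ : Fin N → Kap) (x j : Fin N → V) : W κ x j * W κ x j = 1 := by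
  rw [← abs_mul_abs_self, abs_W]; rfl

lemma abs_sum_ψ_le (κ : Kap) (a : V) : |∑ b, ψ κ a b| ≤ 16 := by
  refine (abs_sum_le_sum_abs _ _).trans ?_
  simp only [abs_ψ]
  simp [card_V]

/-- Coefficients for the lower functions. -/
def κ0 (c : ZMod 2) : Kap := (c, 0, 0, 0, 0, 0)

/-- Coefficients for the upper functions. -/
def κ1 (c : ZMod 2 × V) : Kap := (c.1, c.2.1, c.2.2.1, c.2.2.2.1, c.2.2.2.2, 1)

/-- The block coefficients of the lower function at the point `g`. -/
def κL {n : ℕ} (g : G n) : Fin (n + 1) → Kap := Fin.snoc (α := fun _ => Kap) (fun _ => κ0 g.2.1) 0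

/-- The linear coefficients of the lower function at the point `g`. -/
def xL {n : ℕ} (g : G n) : Fin (n + 1) → V := Fin.snoc (α := fun _ => V) g.1 g.2.2

/-- The lower functions, on `G n`. -/
def L {n : ℕ} (j : Fin (n + 1) → V) (g : G n) : ℤ := sg g.2.1 * W (κL g) (xL g) j

/-- The upper functions, on `G (n + 1)`. -/
def U {n : ℕ} (j : Fin (n + 1) → V) (g : G (n + 1)) : ℤ := W (fun _ => κ1 g.2) g.1 j

lemma abs_L {n : ℕ} (j : Fin (n + 1) → V) (g : G n) : |L j g| = 1 := by
  rw [L, abs_mul, abs_sg, abs_W, mul_one]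

lemma abs_U {n : ℕ} (j : Fin (n + 1) → V) (g : G (n + 1)) : |U j g| = 1 := abs_W _ _ _

lemma κ1_add_eq_zero (c c' : ZMod 2 × V) : κ1 c + κ1 c' = 0 → c = c' := by
  intro h
  simp only [κ1, Prod.mk_add_mk, Prod.mk_eq_zero, CharTwo.add_eq_zero] at h
  obtain ⟨h1, h2, h3, h4, h5, -⟩ := h
  exact Prod.ext h1 (Prod.ext h2 (Prod.ext h3 (Prod.ext h4 h5)))

lemma V_add_self (a : V) : a + a = 0 := by
  have : ∀ x : ZMod 2, x + x = 0 := by decide
  exact Prod.ext (this _) (Prod.ext (this _) (Prod.ext (this _) (this _)))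

lemma V_add_eq_zero {a b : V} : a + b = 0 ↔ a = b := by
  constructor
  · intro h
    have h2 : a + b + b = 0 + b := by rw [h]
    rwa [add_assoc, V_add_self, add_zero, zero_add] at h2
  · rintro rfl; exact V_add_self a

/-- The kernel of the upper functions. -/
lemma sum_UU {n : ℕ} (h g : G (n + 1)) : |∑ j : Fin (n + 1) → V, U j h * U j g| ≤ 8 ^ (n + 1) ∨
    h = g := by
  by_cases hc : h.2 = g.2
  · by_cases ha : h.1 = g.1
    · right; exact Prod.ext ha hc
    · left
      obtain ⟨i, hi⟩ := Function.ne_iff.mp ha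
      have : ∑ j : Fin (n + 1) → V, U j h * U j g = 0 := by
        simp only [U]
        rw [sum_W_mul_W, prod_eq_zero (mem_univ i)]
        have h2 : κ1 h.2 + κ1 g.2 = 0 := by
          rw [hc]
          simp only [κ1, Prod.mk_add_mk, Prod.mk_eq_zero, CharTwo.add_self_eq_zero, and_self]
        rw [h2]
        exact block_lin _ (fun h3 => hi (V_add_eq_zero.mp h3))
      rw [this]
      simp
  · left
    simp only [U]
    rw [sum_W_mul_W, abs_prod]
    refine (prod_le_prod (fun _ _ => abs_nonneg _) (fun i _ => block_quad _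
      (fun h3 => hc (κ1_add_eq_zero _ _ h3)) _)).trans ?_
    simp

lemma κL_castSucc {n : ℕ} (g : G n) (i : Fin n) : κL g i.castSucc = κ0 g.2.1 := by
  simp [κL]

lemma κL_last {n : ℕ} (g : G n) : κL g (Fin.last n) = 0 := by
  simp [κL]

lemma xL_castSucc {n : ℕ} (g : G n) (i : Fin n) : xL g i.castSucc = g.1 i := by
  simp [xL]

lemma xL_last {n : ℕ} (g : G n) : xL g (Fin.last n) = g.2.2 := by
  simp [xL]

lemma sum_LL_eq {n : ℕ} (h g : G n) : ∑ j : Fin (n + 1) → V, L j h * L j g =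
    (sg h.2.1 * sg g.2.1) * ((∏ i : Fin n, ∑ b, ψ (κ0 h.2.1 + κ0 g.2.1) (h.1 i + g.1 i) b) *
      ∑ b, ψ 0 (h.2.2 + g.2.2) b) := by
  have h1 : ∀ j : Fin (n + 1) → V, L j h * L j g =
      (sg h.2.1 * sg g.2.1) * (W (κL h) (xL h) j * W (κL g) (xL g) j) := by
    intro j; rw [L, L]; ring
  simp only [h1]
  rw [← mul_sum, sum_W_mul_W, Fin.prod_univ_castSucc]
  simp only [κL_castSucc, κL_last, xL_castSucc, xL_last, add_zero]

/-- The kernel of the lower functions. -/
lemma sum_LL {n : ℕ} (h g : G n) : |∑ j : Fin (n + 1) → V, L j h * L j g| ≤ 16 * 8 ^ n ∨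
    h = g := by
  by_cases hv : h.2.2 = g.2.2
  · by_cases hc : h.2.1 = g.2.1
    · by_cases ha : h.1 = g.1
      · right; exact Prod.ext ha (Prod.ext hc hv)
      · left
        obtain ⟨i, hi⟩ := Function.ne_iff.mp ha
        have : ∑ j : Fin (n + 1) → V, L j h * L j g = 0 := by
          rw [sum_LL_eq, prod_eq_zero (mem_univ i)]
          · ring
          · have h2 : κ0 h.2.1 + κ0 g.2.1 = 0 := by
              rw [hc]
              simp only [κ0, Prod.mk_add_mk, Prod.mk_eq_zero, CharTwo.add_self_eq_zero, and_self]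
            rw [h2]
            exact block_lin _ (fun h3 => hi (V_add_eq_zero.mp h3))
        rw [this]
        simp
    · left
      rw [sum_LL_eq, abs_mul, abs_mul, abs_mul, abs_sg, abs_sg, abs_prod, one_mul, one_mul,
        mul_comm]
      refine mul_le_mul (abs_sum_ψ_le _ _) ?_ (prod_nonneg fun _ _ => abs_nonneg _) (by norm_num)
      refine (prod_le_prod (fun _ _ => abs_nonneg _) (fun i _ => block_quad _
        (fun h3 => hc ?_) _)).trans ?_
      · simp only [κ0, Prod.mk_add_mk, Prod.mk_eq_zero, CharTwo.add_eq_zero] at h3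
        exact h3.1
      · simp
  · left
    have : ∑ j : Fin (n + 1) → V, L j h * L j g = 0 := by
      rw [sum_LL_eq, block_lin _ (fun h3 => hv (V_add_eq_zero.mp h3))]
      ring
    rw [this]
    simp

/-- The cross kernel. -/
lemma sum_LU {n : ℕ} (h : G n) (g : G (n + 1)) :
    |∑ j : Fin (n + 1) → V, L j h * U j g| ≤ 8 ^ (n + 1) := by
  have h1 : ∀ j : Fin (n + 1) → V, L j h * U j g =
      sg h.2.1 * (W (κL h) (xL h) j * W (fun _ => κ1 g.2) g.1 j) := by
    intro j; rw [L, U]; ring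
  simp only [h1]
  rw [← mul_sum, sum_W_mul_W, abs_mul, abs_sg, one_mul, abs_prod]
  refine (prod_le_prod (fun _ _ => abs_nonneg _) (fun i _ => block_quad _ ?_ _)).trans ?_
  · intro h3
    have h4 : (κL h i).2.2.2.2.2 = 0 := by
      refine Fin.lastCases ?_ (fun i => ?_) i
      · rw [κL_last]; rfl
      · rw [κL_castSucc]; rfl
    have h5 := congrArg (fun κ : Kap => κ.2.2.2.2.2) h3
    simp only [Prod.snd_add, κ1, h4] at h5
    exact absurd h5 (by decide)
  · simp

/-! ### Orthogonality -/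

lemma ψ_split (κ : Kap) (a b : V) : ψ κ a b = ψ κ 0 b * ψ 0 a b := by
  rw [ψ_mul, add_zero, zero_add]

lemma ψ_add_right (a b b' : V) : ψ 0 a b * ψ 0 a b' = ψ 0 a (b + b') := by
  rw [ψ, ψ, ψ, ← sg_add]
  congr 1
  simp only [form, Prod.fst_zero, Prod.snd_zero, Prod.fst_add, Prod.snd_add]
  ring

lemma ψ_self (κ : Kap) (a b : V) : ψ κ a b * ψ κ a b = 1 := by
  rw [← abs_mul_abs_self, abs_ψ]; rfl

/-- Summation over the linear parameters. -/
lemma sum_lin {N : ℕ} (κ κ' : Fin N → Kap) (j j' : Fin N → V) :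
    ∑ a : Fin N → V, W κ a j * W κ' a j' =
      if j = j' then 16 ^ N * (W κ 0 j * W κ' 0 j') else 0 := by
  have h1 : ∀ a : Fin N → V, W κ a j * W κ' a j' =
      (W κ 0 j * W κ' 0 j') * ∏ i, ψ 0 (a i) (j i + j' i) := by
    intro a
    simp only [W]
    rw [← prod_mul_distrib, ← prod_mul_distrib, ← prod_mul_distrib]
    refine prod_congr rfl fun i _ => ?_
    rw [ψ_split (κ i) (a i), ψ_split (κ' i) (a i), ← ψ_add_right]
    simp only [Pi.zero_apply]
    ring
  rw [sum_congr rfl fun a _ => h1 a, ← mul_sum, sum_prod (fun i a => ψ 0 a (j i + j' i))]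
  split_ifs with h
  · subst h
    have : ∀ i : Fin N, ∑ a, ψ 0 a (j i + j i) = 16 := by
      intro i
      rw [V_add_self]
      have : ∀ a : V, ψ 0 a 0 = 1 := by
        intro a; simp [ψ, form, sg]
      simp only [this]
      simp [card_V]
    simp only [this]
    simp
    ring
  · obtain ⟨i, hi⟩ := Function.ne_iff.mp h
    rw [prod_eq_zero (mem_univ i) (block_dual _ (fun h3 => hi (V_add_eq_zero.mp h3))), mul_zero]

lemma sum_G {n : ℕ} (f : G n → ℤ) : ∑ g, f g = ∑ c : ZMod 2 × V, ∑ a : Fin n → V, f (a, c) := by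
  rw [Fintype.sum_prod_type_right]

lemma card_c : Fintype.card (ZMod 2 × V) = 32 := by decide

lemma card_G (n : ℕ) : Fintype.card (G n) = 32 * 16 ^ n := by
  rw [Fintype.card_prod, card_c, Fintype.card_fun, card_V, Fintype.card_fin, mul_comm]

/-- Orthogonality of the upper functions. -/
lemma orth_UU {n : ℕ} (j j' : Fin (n + 1) → V) :
    ∑ g : G (n + 1), U j g * U j' g = if j = j' then 32 * 16 ^ (n + 1) else 0 := by
  rw [sum_G]
  simp only [U]
  simp only [sum_lin]
  split_ifs with h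
  · subst h
    simp only [W_mul_self]
    simp only [sum_const, card_univ, card_c]
    simp
  · simp

lemma W_castSucc {n : ℕ} (κ : Fin (n + 1) → Kap) (x j : Fin (n + 1) → V) :
    W κ x j = W (fun i => κ (Fin.castSucc i)) (fun i => x (Fin.castSucc i))
      (fun i => j (Fin.castSucc i)) * ψ (κ (Fin.last n)) (x (Fin.last n)) (j (Fin.last n)) := by
  rw [W, Fin.prod_univ_castSucc]
  rfl

lemma L_eq {n : ℕ} (j : Fin (n + 1) → V) (a : Fin n → V) (c : ZMod 2 × V) :
    L j ((a, c) : G n) = sg c.1 * (W (fun _ => κ0 c.1) a (fun i => j (Fin.castSucc i)) *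
      ψ 0 c.2 (j (Fin.last n))) := by
  rw [L, W_castSucc]
  simp only [κL_castSucc, κL_last, xL_castSucc, xL_last]

/-- Orthogonality of the lower functions. -/
lemma orth_LL {n : ℕ} (j j' : Fin (n + 1) → V) :
    ∑ g : G n, L j g * L j' g = if j = j' then 32 * 16 ^ n else 0 := by
  rw [sum_G]
  simp only [L_eq]
  have h1 : ∀ (c : ZMod 2 × V), ∑ a : Fin n → V,
      sg c.1 * (W (fun _ => κ0 c.1) a (fun i => j (Fin.castSucc i)) * ψ 0 c.2 (j (Fin.last n))) *
      (sg c.1 * (W (fun _ => κ0 c.1) a (fun i => j' (Fin.castSucc i)) *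
        ψ 0 c.2 (j' (Fin.last n)))) =
      (if (fun i : Fin n => j (Fin.castSucc i)) = (fun i : Fin n => j' (Fin.castSucc i)) then
        16 ^ n else 0) * ψ 0 c.2 (j (Fin.last n) + j' (Fin.last n)) := by
    intro c
    have h2 : ∀ a : Fin n → V,
      sg c.1 * (W (fun _ => κ0 c.1) a (fun i => j (Fin.castSucc i)) * ψ 0 c.2 (j (Fin.last n))) *
      (sg c.1 * (W (fun _ => κ0 c.1) a (fun i => j' (Fin.castSucc i)) *
        ψ 0 c.2 (j' (Fin.last n)))) =
      (sg c.1 * sg c.1 * (ψ 0 c.2 (j (Fin.last n)) * ψ 0 c.2 (j' (Fin.last n)))) *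
        (W (fun _ => κ0 c.1) a (fun i => j (Fin.castSucc i)) *
          W (fun _ => κ0 c.1) a (fun i => j' (Fin.castSucc i))) := by
      intro a; ring
    simp only [h2]
    rw [← mul_sum, sum_lin, sg_mul_self, ψ_add_right]
    split_ifs with h3
    · rw [← h3, W_mul_self]; ring
    · ring
  simp only [h1]
  rw [← mul_sum, Fintype.sum_prod_type]
  simp only [sum_const, card_univ, ZMod.card]
  split_ifs with h2 h3 h3
  · subst h3
    have : ∀ a : V, ψ 0 a (j (Fin.last n) + j (Fin.last n)) = 1 := by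
      intro a; rw [V_add_self]; simp [ψ, form, sg]
    simp only [this]
    simp [card_V]
    ring
  · have h4 : j (Fin.last n) ≠ j' (Fin.last n) := by
      intro h5
      apply h3
      funext i
      refine Fin.lastCases h5 (fun i => ?_) i
      exact congrFun h2 i
    rw [block_dual _ (fun h5 => h4 (V_add_eq_zero.mp h5))]
    simp
  · exact absurd (by rw [h3]) h2
  · simp

/-- Orthogonality between lower and upper functions on the same group. -/
lemma orth_LU {n : ℕ} (j : Fin (n + 2) → V) (j' : Fin (n + 1) → V) :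
    ∑ g : G (n + 1), L j g * U j' g = 0 := by
  rw [sum_G]
  simp only [L_eq, U]
  have h1 : ∀ (c : ZMod 2 × V), ∑ a : Fin (n + 1) → V,
      sg c.1 * (W (fun _ => κ0 c.1) a (fun i => j (Fin.castSucc i)) *
        ψ 0 c.2 (j (Fin.last (n + 1)))) * W (fun _ => κ1 c) a j' =
      (if (fun i : Fin (n + 1) => j (Fin.castSucc i)) = j' then
        16 ^ (n + 1) else 0) * (sg c.1 * (ψ 0 c.2 (j (Fin.last (n + 1))) *
          W (fun _ => κ1 (0, c.2)) 0 j')) := by
    intro c
    have h2 : ∀ a : Fin (n + 1) → V,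
      sg c.1 * (W (fun _ => κ0 c.1) a (fun i => j (Fin.castSucc i)) *
        ψ 0 c.2 (j (Fin.last (n + 1)))) * W (fun _ => κ1 c) a j' =
      (sg c.1 * ψ 0 c.2 (j (Fin.last (n + 1)))) *
        (W (fun _ => κ0 c.1) a (fun i => j (Fin.castSucc i)) * W (fun _ => κ1 c) a j') := by
      intro a; ring
    simp only [h2]
    rw [← mul_sum, sum_lin]
    split_ifs with h3
    · rw [h3]
      have h4 : W (fun _ => κ0 c.1) 0 j' * W (fun _ => κ1 c) 0 j' =
          W (fun _ => κ1 (0, c.2)) 0 j' := by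
        simp only [W]
        rw [← prod_mul_distrib]
        refine prod_congr rfl fun i _ => ?_
        rw [ψ_mul]
        congr 1
        simp only [κ0, κ1, Prod.mk_add_mk, CharTwo.add_self_eq_zero, zero_add]
      rw [h4]; ring
    · ring
  simp only [h1]
  rw [← mul_sum, Fintype.sum_prod_type]
  have h5 : ∑ x : ZMod 2, ∑ y : V, sg x * (ψ 0 y (j (Fin.last (n + 1))) *
      W (fun _ => κ1 (0, y)) 0 j') = 0 := by
    simp only [← mul_sum]
    rw [← sum_mul, sum_sg, zero_mul]
  rw [h5, mul_zero]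

lemma sum_UU_self {n : ℕ} (g : G (n + 1)) : ∑ j : Fin (n + 1) → V, U j g * U j g =
    16 ^ (n + 1) := by
  simp only [U, W_mul_self]
  simp [card_V]

lemma sum_LL_self {n : ℕ} (g : G n) : ∑ j : Fin (n + 1) → V, L j g * L j g =
    16 ^ (n + 1) := by
  have : ∀ j : Fin (n + 1) → V, L j g * L j g = 1 := by
    intro j; rw [← abs_mul_abs_self, abs_L]; rfl
  simp only [this]
  simp [card_V]

end Pool.Agent.Lib.MP_ffba67_an_b
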