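import Pool.Agent.Lib.MP_ffba67_an_b.Space

/-!
# Telescoping estimate: finite rank operators have small trace
-/

set_option autoImplicit false

open Finset
open scoped ENNReal

namespace Pool.Agent.Lib.MP_ffba67_an_b

variable (𝕂 : Type) [RCLike 𝕂]

/-- The vectors `Φ_h`. -/
noncomputable def Phi (n : ℕ) (h : G (n + 1)) : ell 𝕂 :=
  ((16 ^ (n + 2) : ℕ) : 𝕂)⁻¹ • ∑ j : Fin (n + 2) → V, ((L j h : ℤ) : 𝕂) • vec 𝕂 (n + 1) j -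
    ((16 ^ (n + 1) : ℕ) : 𝕂)⁻¹ • ∑ j : Fin (n + 1) → V, ((U j h : ℤ) : 𝕂) • vec 𝕂 n j

lemma coe_sum_ell {ι : Type} (s : Finset ι) (f : ι → ell 𝕂) (i : Idx) :
    (∑ j ∈ s, f j) i = ∑ j ∈ s, f j i := by
  exact map_sum (evl 𝕂 i) f s

lemma Phi_apply (n : ℕ) (h : G (n + 1)) (i : Idx) :
    Phi 𝕂 n h i = ((16 ^ (n + 2) : ℕ) : 𝕂)⁻¹ *
      ((∑ j : Fin (n + 2) → V, L j h * ev (n + 1) j i : ℤ) : 𝕂) -
      ((16 ^ (n + 1) : ℕ) : 𝕂)⁻¹ * ((∑ j : Fin (n + 1) → V, U j h * ev n j i : ℤ) : 𝕂) := by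
  have h1 : Phi 𝕂 n h i = ((16 ^ (n + 2) : ℕ) : 𝕂)⁻¹ *
      (∑ j : Fin (n + 2) → V, ((L j h : ℤ) : 𝕂) • vec 𝕂 (n + 1) j) i -
      ((16 ^ (n + 1) : ℕ) : 𝕂)⁻¹ * (∑ j : Fin (n + 1) → V, ((U j h : ℤ) : 𝕂) • vec 𝕂 n j) i := rfl
  rw [h1, coe_sum_ell, coe_sum_ell]
  push_cast
  rfl

lemma Phi_mem (n : ℕ) (h : G (n + 1)) : Phi 𝕂 n h ∈ XX 𝕂 := by
  unfold Phi
  refine Submodule.sub_mem _ (Submodule.smul_mem _ _ (Submodule.sum_mem _ fun j _ =>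
    Submodule.smul_mem _ _ (vec_mem 𝕂 _ _))) (Submodule.smul_mem _ _ (Submodule.sum_mem _ fun j _ =>
    Submodule.smul_mem _ _ (vec_mem 𝕂 _ _)))

lemma norm_inv_mul_int (k : ℕ) (z : ℤ) (b : ℕ) (hz : |z| ≤ b) :
    ‖((16 ^ k : ℕ) : 𝕂)⁻¹ * (z : 𝕂)‖ ≤ b / 16 ^ k := by
  rw [norm_mul, norm_inv, RCLike.norm_natCast, norm_int_cast]
  push_cast
  rw [div_eq_inv_mul]
  refine mul_le_mul_of_nonneg_left ?_ (by positivity)
  exact_mod_cast hz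

lemma pow_div (n : ℕ) : (8 : ℝ) ^ n / 16 ^ n = (1 / 2) ^ n := by
  rw [← div_pow]; norm_num

lemma norm_Phi_apply (n : ℕ) (h : G (n + 1)) (i : Idx) : ‖Phi 𝕂 n h i‖ ≤ (1 / 2) ^ n := by
  rw [Phi_apply]
  obtain ⟨k, g⟩ := i
  have hhalf : (0 : ℝ) ≤ (1 / 2) ^ n := by positivity
  by_cases hk1 : k = n + 1
  · subst hk1
    simp only [ev_lower, ev_upper]
    rcases eq_or_ne h g with rfl | hne
    · rw [sum_LL_self, sum_UU_self]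
      push_cast
      have h16 : (16 : 𝕂) ≠ 0 := by norm_num
      rw [inv_mul_cancel₀ (pow_ne_zero _ h16), inv_mul_cancel₀ (pow_ne_zero _ h16), sub_self,
        norm_zero]
      exact hhalf
    · have h1 := (sum_LL h g).resolve_right hne
      have h2 := (sum_UU h g).resolve_right hne
      refine (norm_sub_le _ _).trans ?_
      have h3 := norm_inv_mul_int 𝕂 (n + 2) _ (16 * 8 ^ (n + 1)) (by exact_mod_cast h1)
      have h4 := norm_inv_mul_int 𝕂 (n + 1) _ (8 ^ (n + 1)) (by exact_mod_cast h2)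
      refine (add_le_add h3 h4).trans ?_
      have h5 : (((16 * 8 ^ (n + 1) : ℕ) : ℝ)) / 16 ^ (n + 2) = (1 / 2) * (1 / 2) ^ n := by
        push_cast
        rw [← pow_div, pow_succ 8 n, pow_succ 16 (n + 1), pow_succ 16 n]
        field_simp
        norm_num
      have h6 : (((8 ^ (n + 1) : ℕ) : ℝ)) / 16 ^ (n + 1) = (1 / 2) * (1 / 2) ^ n := by
        push_cast
        rw [pow_div, pow_succ]; ring
      rw [h5, h6]
      linarith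
  · by_cases hk2 : k = n + 2
    · subst hk2
      have h0 : ∑ j : Fin (n + 1) → V, U j h * ev n j ⟨n + 2, g⟩ = 0 :=
        sum_eq_zero fun j _ => by rw [ev_other n j (n + 2) g (by omega) (by omega), mul_zero]
      rw [h0]
      simp only [ev_upper]
      rw [Int.cast_zero, mul_zero, sub_zero]
      have h1 := sum_LU h g
      refine (norm_inv_mul_int 𝕂 (n + 2) _ (8 ^ (n + 2)) (by exact_mod_cast h1)).trans ?_
      push_cast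
      rw [pow_div]
      exact pow_le_pow_of_le_one (by norm_num) (by norm_num) (by omega)
    · have h0 : ∑ j : Fin (n + 2) → V, L j h * ev (n + 1) j ⟨k, g⟩ = 0 :=
        sum_eq_zero fun j _ => by rw [ev_other (n + 1) j k g hk1 hk2, mul_zero]
      rw [h0, Int.cast_zero, mul_zero, zero_sub, norm_neg]
      by_cases hk3 : k = n
      · subst hk3
        simp only [ev_lower]
        have h1 := sum_LU g h
        have h2 : ∑ j : Fin (k + 1) → V, U j h * L j g = ∑ j : Fin (k + 1) → V, L j g * U j h :=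
          sum_congr rfl fun j _ => mul_comm _ _
        rw [h2]
        refine (norm_inv_mul_int 𝕂 (k + 1) _ (8 ^ (k + 1)) (by exact_mod_cast h1)).trans ?_
        push_cast
        rw [pow_div]
        exact pow_le_pow_of_le_one (by norm_num) (by norm_num) (by omega)
      · have h1 : ∑ j : Fin (n + 1) → V, U j h * ev n j ⟨k, g⟩ = 0 :=
          sum_eq_zero fun j _ => by rw [ev_other n j k g hk3 hk1, mul_zero]
        rw [h1, Int.cast_zero, mul_zero, norm_zero]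
        exact hhalf

lemma Phi_eq_zero (n : ℕ) (h : G (n + 1)) (i : Idx) (hi : i ∉ lev n ∪ lev (n + 1) ∪ lev (n + 2)) :
    Phi 𝕂 n h i = 0 := by
  obtain ⟨k, g⟩ := i
  simp only [mem_union, mem_lev, not_or] at hi
  rw [Phi_apply]
  have h0 : ∑ j : Fin (n + 2) → V, L j h * ev (n + 1) j ⟨k, g⟩ = 0 :=
    sum_eq_zero fun j _ => by rw [ev_other (n + 1) j k g hi.1.2 hi.2, mul_zero]
  have h1 : ∑ j : Fin (n + 1) → V, U j h * ev n j ⟨k, g⟩ = 0 :=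
    sum_eq_zero fun j _ => by rw [ev_other n j k g hi.1.1 hi.1.2, mul_zero]
  rw [h0, h1]
  simp

lemma norm_Phi (n : ℕ) (h : G (n + 1)) : ‖Phi 𝕂 n h‖ ≤ 4 * (3 / 4) ^ n := by
  have h1 : ‖Phi 𝕂 n h‖ ^ 8 ≤ (4 * (3 / 4 : ℝ) ^ n) ^ 8 := by
    rw [norm_pow_eq_sum _ _ (Phi_eq_zero 𝕂 n h)]
    have h2 : ∑ i ∈ lev n ∪ lev (n + 1) ∪ lev (n + 2), ‖Phi 𝕂 n h i‖ ^ 8 ≤
        (lev n ∪ lev (n + 1) ∪ lev (n + 2)).card • ((1 / 2 : ℝ) ^ n) ^ 8 := by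
      refine sum_le_card_nsmul _ _ _ fun i _ => ?_
      exact pow_le_pow_left₀ (norm_nonneg _) (norm_Phi_apply 𝕂 n h i) 8
    refine h2.trans ?_
    have h3 : (lev n ∪ lev (n + 1) ∪ lev (n + 2)).card = 8736 * 16 ^ n := by
      rw [card_union_of_disjoint, card_union_of_disjoint (disjoint_lev (by omega)), card_lev,
        card_lev, card_lev]
      · ring
      · rw [disjoint_union_left]
        exact ⟨disjoint_lev (by omega), disjoint_lev (by omega)⟩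
    rw [h3, nsmul_eq_mul]
    push_cast
    have h4 : (8736 * 16 ^ n : ℝ) * ((1 / 2) ^ n) ^ 8 = 8736 * (1 / 16) ^ n := by
      rw [← pow_mul, mul_comm n 8, pow_mul, mul_assoc, ← mul_pow]
      norm_num
    have h5 : (4 * (3 / 4 : ℝ) ^ n) ^ 8 = 65536 * (6561 / 65536) ^ n := by
      rw [mul_pow, ← pow_mul, mul_comm n 8, pow_mul]
      norm_num
    rw [h4, h5]
    have h6 : (1 / 16 : ℝ) ^ n ≤ (6561 / 65536) ^ n :=
      pow_le_pow_left₀ (by norm_num) (by norm_num) n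
    have h7 : (0 : ℝ) ≤ (1 / 16 : ℝ) ^ n := by positivity
    linarith
  exact le_of_pow_le_pow_left₀ (by norm_num) (by positivity) h1

/-- The vector `e_{n,j}` as an element of `X`. -/
noncomputable def e (n : ℕ) (j : Fin (n + 1) → V) : XX 𝕂 := ⟨vec 𝕂 n j, vec_mem 𝕂 n j⟩

/-- The biorthogonal functional on `X`. -/
noncomputable def al (n : ℕ) (j : Fin (n + 1) → V) : XX 𝕂 →L[𝕂] 𝕂 :=
  (fA 𝕂 n j).comp (XX 𝕂).subtypeL

lemma al_apply (n : ℕ) (j : Fin (n + 1) → V) (x : XX 𝕂) : al 𝕂 n j x = fA 𝕂 n j x := rfl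

/-- The averaged trace. -/
noncomputable def beta (n : ℕ) (T : XX 𝕂 →L[𝕂] XX 𝕂) : 𝕂 :=
  ((16 ^ (n + 1) : ℕ) : 𝕂)⁻¹ * ∑ j : Fin (n + 1) → V, al 𝕂 n j (T (e 𝕂 n j))

lemma beta_diff (n : ℕ) (T : XX 𝕂 →L[𝕂] XX 𝕂) :
    beta 𝕂 (n + 1) T - beta 𝕂 n T = ((32 * 16 ^ (n + 1) : ℕ) : 𝕂)⁻¹ *
      ∑ h : G (n + 1), ((T ⟨Phi 𝕂 n h, Phi_mem 𝕂 n h⟩ : XX 𝕂) : ell 𝕂) ⟨n + 1, h⟩ := by
  have h1 : ∀ h : G (n + 1), ((T ⟨Phi 𝕂 n h, Phi_mem 𝕂 n h⟩ : XX 𝕂) : ell 𝕂) ⟨n + 1, h⟩ =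
      ((16 ^ (n + 2) : ℕ) : 𝕂)⁻¹ * ∑ j : Fin (n + 2) → V, ((L j h : ℤ) : 𝕂) *
        ((T (e 𝕂 (n + 1) j) : XX 𝕂) : ell 𝕂) ⟨n + 1, h⟩ -
      ((16 ^ (n + 1) : ℕ) : 𝕂)⁻¹ * ∑ j : Fin (n + 1) → V, ((U j h : ℤ) : 𝕂) *
        ((T (e 𝕂 n j) : XX 𝕂) : ell 𝕂) ⟨n + 1, h⟩ := by
    intro h
    set ρ : XX 𝕂 →L[𝕂] 𝕂 := (evl 𝕂 ⟨n + 1, h⟩).comp ((XX 𝕂).subtypeL.comp T) with hρ
    have hρa : ∀ x : XX 𝕂, ((T x : XX 𝕂) : ell 𝕂) ⟨n + 1, h⟩ = ρ x := fun x => rfl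
    simp only [hρa]
    have h2 : (⟨Phi 𝕂 n h, Phi_mem 𝕂 n h⟩ : XX 𝕂) =
        ((16 ^ (n + 2) : ℕ) : 𝕂)⁻¹ • ∑ j : Fin (n + 2) → V, ((L j h : ℤ) : 𝕂) • e 𝕂 (n + 1) j -
        ((16 ^ (n + 1) : ℕ) : 𝕂)⁻¹ • ∑ j : Fin (n + 1) → V, ((U j h : ℤ) : 𝕂) • e 𝕂 n j := by
      apply Subtype.ext
      simp only [Submodule.coe_sub, Submodule.coe_smul, Submodule.coe_sum, e]
      rfl
    rw [h2]
    simp only [map_sub, map_smul, map_sum, smul_eq_mul]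
  simp only [h1]
  rw [sum_sub_distrib, mul_sub, ← mul_sum, ← mul_sum, sum_comm]
  unfold beta
  congr 1
  · rw [mul_left_comm]
    congr 1
    rw [mul_sum]
    refine sum_congr rfl fun j _ => ?_
    rw [al_apply, fA_apply]
  · rw [mul_left_comm]
    congr 1
    rw [sum_comm, mul_sum]
    refine sum_congr rfl fun j _ => ?_
    rw [al_apply, fA_eq_fB 𝕂 n j _ (Submodule.coe_mem _), fB_apply]

lemma norm_beta_diff (n : ℕ) (T : XX 𝕂 →L[𝕂] XX 𝕂) :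
    ‖beta 𝕂 (n + 1) T - beta 𝕂 n T‖ ≤ ‖T‖ * (4 * (3 / 4) ^ n) := by
  rw [beta_diff, norm_mul, norm_inv, RCLike.norm_natCast]
  have hpos : (0 : ℝ) < ((32 * 16 ^ (n + 1) : ℕ) : ℝ) := by positivity
  rw [inv_mul_le_iff₀ hpos]
  refine (norm_sum_le _ _).trans ?_
  have h1 : ∀ h : G (n + 1), ‖((T ⟨Phi 𝕂 n h, Phi_mem 𝕂 n h⟩ : XX 𝕂) : ell 𝕂) ⟨n + 1, h⟩‖ ≤
      ‖T‖ * (4 * (3 / 4) ^ n) := by
    intro h
    refine (lp.norm_apply_le_norm (by norm_num) _ _).trans ?_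
    refine (T.le_opNorm _).trans ?_
    exact mul_le_mul_of_nonneg_left (norm_Phi 𝕂 n h) T.opNorm_nonneg
  refine (sum_le_card_nsmul _ _ _ fun h _ => h1 h).trans ?_
  rw [card_univ, card_G, nsmul_eq_mul]

/-- Coordinates of a fixed vector decay. -/
lemma decay (x : XX 𝕂) {ε : ℝ} (hε : 0 < ε) :
    ∃ N, ∀ n, N ≤ n → ∀ j i : Fin (n + 1) → V, ‖al 𝕂 n j x‖ * ‖vec 𝕂 n i‖ ≤ ε := by
  set S := Submodule.span 𝕂 (Set.range fun p : (Σ n : ℕ, Fin (n + 1) → V) => vec 𝕂 p.1 p.2) with hS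
  have hx : (x : ell 𝕂) ∈ closure (S : Set (ell 𝕂)) := x.2
  obtain ⟨y, hy, hxy⟩ := Metric.mem_closure_iff.mp hx ε hε
  have hyN : ∃ N, ∀ n, N ≤ n → ∀ j : Fin (n + 1) → V, fA 𝕂 n j y = 0 := by
    refine Submodule.span_induction (p := fun y _ => ∃ N, ∀ n, N ≤ n →
      ∀ j : Fin (n + 1) → V, fA 𝕂 n j y = 0) ?_ ?_ ?_ ?_ hy
    · rintro _ ⟨⟨k, i⟩, rfl⟩
      exact ⟨k + 1, fun n hn j => fA_vec_ne 𝕂 n k (by omega) j i⟩
    · exact ⟨0, fun n _ j => map_zero _⟩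
    · rintro a b _ _ ⟨N, hN⟩ ⟨M, hM⟩
      refine ⟨max N M, fun n hn j => ?_⟩
      rw [map_add, hN n ((le_max_left _ _).trans hn), hM n ((le_max_right _ _).trans hn), add_zero]
    · rintro c a _ ⟨N, hN⟩
      exact ⟨N, fun n hn j => by rw [map_smul, hN n hn, smul_zero]⟩
  obtain ⟨N, hN⟩ := hyN
  refine ⟨N, fun n hn j i => ?_⟩
  have h1 : al 𝕂 n j x = fA 𝕂 n j ((x : ell 𝕂) - y) := by
    rw [map_sub, hN n hn, sub_zero, al_apply]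
  rw [h1]
  have hyX : y ∈ XX 𝕂 := Submodule.le_topologicalClosure _ hy
  refine (fA_norm 𝕂 n j i _ ((XX 𝕂).sub_mem x.2 hyX)).trans ?_
  rw [← dist_eq_norm]
  exact hxy.le

lemma beta_finite_rank (T : XX 𝕂 →L[𝕂] XX 𝕂)
    (hT : FiniteDimensional 𝕂 (LinearMap.range (T : XX 𝕂 →ₗ[𝕂] XX 𝕂))) {ε : ℝ} (hε : 0 < ε) :
    ∃ N, ∀ n, N ≤ n → ‖beta 𝕂 n T‖ ≤ ε := by
  classical
  set R := LinearMap.range (T : XX 𝕂 →ₗ[𝕂] XX 𝕂) with hR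
  set b := Module.finBasis 𝕂 R with hb
  set T' : XX 𝕂 →L[𝕂] R := T.codRestrict R (fun x => ⟨x, rfl⟩) with hT'
  set φ : Fin (Module.finrank 𝕂 R) → (XX 𝕂 →L[𝕂] 𝕂) := fun i =>
    (LinearMap.toContinuousLinearMap (b.coord i)).comp T' with hφ
  have hTx : ∀ x, T x = ∑ i, φ i x • ((b i : R) : XX 𝕂) := by
    intro x
    have h1 := b.sum_repr (T' x)
    have h2 := congrArg (Subtype.val) h1
    rw [Submodule.coe_sum] at h2
    simp only [Submodule.coe_smul] at h2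
    exact h2.symm
  set C : ℝ := ∑ i, ‖φ i‖ with hC
  have hC0 : 0 ≤ C := sum_nonneg fun i _ => (φ i).opNorm_nonneg
  have hε' : 0 < ε / (C + 1) := by positivity
  have hch : ∀ i, ∃ N, ∀ n, N ≤ n → ∀ j i' : Fin (n + 1) → V,
      ‖al 𝕂 n j ((b i : R) : XX 𝕂)‖ * ‖vec 𝕂 n i'‖ ≤ ε / (C + 1) := fun i => decay 𝕂 _ hε'
  choose Nf hNf using hch
  refine ⟨∑ i, Nf i, fun n hn => ?_⟩
  have hNi : ∀ i, Nf i ≤ n := fun i => (single_le_sum (fun i _ => Nat.zero_le _) (mem_univ i)).trans hn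
  unfold beta
  rw [norm_mul, norm_inv, RCLike.norm_natCast]
  have hpos : (0 : ℝ) < ((16 ^ (n + 1) : ℕ) : ℝ) := by positivity
  rw [inv_mul_le_iff₀ hpos]
  refine (norm_sum_le _ _).trans ?_
  have h1 : ∀ j : Fin (n + 1) → V, ‖al 𝕂 n j (T (e 𝕂 n j))‖ ≤ ε := by
    intro j
    rw [hTx, map_sum]
    refine (norm_sum_le _ _).trans ?_
    have h2 : ∀ i, ‖al 𝕂 n j (φ i (e 𝕂 n j) • ((b i : R) : XX 𝕂))‖ ≤ ‖φ i‖ * (ε / (C + 1)) := by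
      intro i
      rw [map_smul, norm_smul]
      have h3 : ‖φ i (e 𝕂 n j)‖ ≤ ‖φ i‖ * ‖vec 𝕂 n j‖ := (φ i).le_opNorm _
      calc ‖φ i (e 𝕂 n j)‖ * ‖al 𝕂 n j ((b i : R) : XX 𝕂)‖
          ≤ (‖φ i‖ * ‖vec 𝕂 n j‖) * ‖al 𝕂 n j ((b i : R) : XX 𝕂)‖ :=
            mul_le_mul_of_nonneg_right h3 (norm_nonneg _)
        _ = ‖φ i‖ * (‖al 𝕂 n j ((b i : R) : XX 𝕂)‖ * ‖vec 𝕂 n j‖) := by ring
        _ ≤ ‖φ i‖ * (ε / (C + 1)) :=
            mul_le_mul_of_nonneg_left (hNf i n (hNi i) j j) (φ i).opNorm_nonneg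
    refine (sum_le_sum fun i _ => h2 i).trans ?_
    rw [← sum_mul, ← hC]
    rw [mul_div_assoc', div_le_iff₀ (by positivity)]
    nlinarith
  refine (sum_le_card_nsmul _ _ _ fun j _ => h1 j).trans ?_
  rw [card_univ, Fintype.card_fun, card_V, Fintype.card_fin, nsmul_eq_mul]

lemma norm_beta_le_add (n k : ℕ) (T : XX 𝕂 →L[𝕂] XX 𝕂) :
    ‖beta 𝕂 n T‖ ≤ ‖beta 𝕂 (n + k) T‖ + ‖T‖ * (16 * (3 / 4) ^ n * (1 - (3 / 4) ^ k)) := by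
  induction k with
  | zero => simp
  | succ k ih =>
    have h1 := norm_beta_diff 𝕂 (n + k) T
    have h2 : ‖beta 𝕂 (n + k) T‖ ≤ ‖beta 𝕂 (n + k + 1) T‖ +
        ‖beta 𝕂 (n + k + 1) T - beta 𝕂 (n + k) T‖ := by
      have := norm_sub_norm_le (beta 𝕂 (n + k) T) (beta 𝕂 (n + k + 1) T)
      rw [norm_sub_rev] at this
      linarith
    have h3 : ‖T‖ * (16 * (3 / 4) ^ n * (1 - (3 / 4) ^ (k + 1))) =
        ‖T‖ * (16 * (3 / 4) ^ n * (1 - (3 / 4) ^ k)) + ‖T‖ * (4 * (3 / 4) ^ (n + k)) := by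
      rw [pow_add, pow_succ]; ring
    rw [← add_assoc, h3]
    linarith

/-- Finite rank operators have small averaged trace. -/
lemma norm_beta_le (n : ℕ) (T : XX 𝕂 →L[𝕂] XX 𝕂)
    (hT : FiniteDimensional 𝕂 (LinearMap.range (T : XX 𝕂 →ₗ[𝕂] XX 𝕂))) :
    ‖beta 𝕂 n T‖ ≤ ‖T‖ * (16 * (3 / 4) ^ n) := by
  refine le_of_forall_pos_le_add fun ε hε => ?_
  obtain ⟨N, hN⟩ := beta_finite_rank 𝕂 T hT hε
  refine (norm_beta_le_add 𝕂 n N T).trans ?_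
  have h1 := hN (n + N) (by omega)
  have h2 : ‖T‖ * (16 * (3 / 4) ^ n * (1 - (3 / 4) ^ N)) ≤ ‖T‖ * (16 * (3 / 4) ^ n) := by
    refine mul_le_mul_of_nonneg_left ?_ T.opNorm_nonneg
    have h3 : (0 : ℝ) ≤ (3 / 4) ^ N := by positivity
    have h4 : (0 : ℝ) ≤ 16 * (3 / 4) ^ n := by positivity
    nlinarith
  linarith

end Pool.Agent.Lib.MP_ffba67_an_b
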